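import Mathlib

/-!
# Moments of `m / φ(m)`
-/

set_option autoImplicit false

namespace Pool.Agent.K4H8.DP

open Finset

/-- mean values of products over the prime factors -/
lemma moment_gen (X : ℕ) (f : ℕ → ℝ) (hf : ∀ p, 0 ≤ f p) :
    ∑ m ∈ Icc 1 X, ∏ p ∈ m.primeFactors, (1 + f p) ≤
      X * ∏ p ∈ (Ioc 0 X).filter Nat.Prime, (1 + f p / p) := by
  classical
  obtain ⟨Q, hQ⟩ : ∃ Q, Q = (Ioc 0 X).filter Nat.Prime := ⟨_, rfl⟩
  rw [← hQ]
  have h1 : ∀ m ∈ Icc 1 X, ∏ p ∈ m.primeFactors, (1 + f p) =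
      ∑ S ∈ Q.powerset, if S ⊆ m.primeFactors then ∏ p ∈ S, f p else 0 := by
    intro m hm
    rw [mem_Icc] at hm
    have hsub : m.primeFactors ⊆ Q := by
      intro p hp
      rw [hQ, mem_filter, mem_Ioc]
      have hpp := Nat.prime_of_mem_primeFactors hp
      exact ⟨⟨hpp.pos, (Nat.le_of_dvd hm.1 (Nat.dvd_of_mem_primeFactors hp)).trans hm.2⟩, hpp⟩
    rw [prod_one_add, ← sum_filter]
    apply sum_congr _ (fun _ _ => rfl)
    ext S
    rw [mem_powerset, mem_filter, mem_powerset]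
    exact ⟨fun h => ⟨h.trans hsub, h⟩, fun h => h.2⟩
  rw [sum_congr rfl h1, sum_comm]
  have h2 : ∀ S ∈ Q.powerset, ∑ m ∈ Icc 1 X, (if S ⊆ m.primeFactors then ∏ p ∈ S, f p else 0) ≤
      X * ∏ p ∈ S, (f p / p) := by
    intro S hS
    rw [mem_powerset] at hS
    have hSp : ∀ p ∈ S, p.Prime := fun p hp => by
      have := hS hp
      rw [hQ, mem_filter] at this
      exact this.2
    rw [← sum_filter, sum_const, nsmul_eq_mul]
    have hcard : (((Icc 1 X).filter (fun m => S ⊆ m.primeFactors)).card : ℝ) ≤ X / ∏ p ∈ S, (p : ℝ) := by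
      have h3 : (Icc 1 X).filter (fun m => S ⊆ m.primeFactors) ⊆
          (Ioc 0 X).filter (fun m => (∏ p ∈ S, p) ∣ m) := by
        intro m hm
        rw [mem_filter, mem_Icc] at hm
        rw [mem_filter, mem_Ioc]
        refine ⟨by omega, ?_⟩
        apply Finset.prod_primes_dvd
        · intro p hp
          exact (hSp p hp).prime
        · intro p hp
          exact Nat.dvd_of_mem_primeFactors (hm.2 hp)
      have h4 := card_le_card h3
      rw [Nat.Ioc_filter_dvd_card_eq_div] at h4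
      calc (((Icc 1 X).filter (fun m => S ⊆ m.primeFactors)).card : ℝ) ≤ ((X / ∏ p ∈ S, p : ℕ) : ℝ) := by
            exact_mod_cast h4
        _ ≤ (X : ℝ) / ((∏ p ∈ S, p : ℕ) : ℝ) := Nat.cast_div_le
        _ = _ := by push_cast; rfl
    calc (((Icc 1 X).filter (fun m => S ⊆ m.primeFactors)).card : ℝ) * ∏ p ∈ S, f p
        ≤ (X / ∏ p ∈ S, (p : ℝ)) * ∏ p ∈ S, f p :=
          mul_le_mul_of_nonneg_right hcard (prod_nonneg fun p _ => hf p)
      _ = X * ∏ p ∈ S, (f p / p) := by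
          rw [prod_div_distrib]
          ring
  refine (sum_le_sum h2).trans ?_
  rw [← mul_sum, prod_one_add]

lemma prod_mono_one {A B : Finset ℕ} {u : ℕ → ℝ} (h : A ⊆ B) (hu : ∀ p ∈ B, 1 ≤ u p) :
    ∏ p ∈ A, u p ≤ ∏ p ∈ B, u p := by
  classical
  rw [← prod_sdiff h]
  have h0 : 0 ≤ ∏ p ∈ A, u p := prod_nonneg fun p hp => by linarith [hu p (h hp)]
  have h1 : 1 ≤ ∏ p ∈ B \ A, u p := by
    calc (1 : ℝ) = ∏ _p ∈ B \ A, (1 : ℝ) := by simp
      _ ≤ _ := prod_le_prod (fun _ _ => zero_le_one) (fun p hp => hu p (mem_sdiff.1 hp).1)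
  nlinarith

/-- `m / φ(m)` as a product -/
noncomputable def hh (m : ℕ) : ℝ := ∏ p ∈ m.primeFactors, (1 - 1 / (p : ℝ))⁻¹

lemma one_le_fac {p : ℕ} (hp : 2 ≤ p) : 1 ≤ (1 - 1 / (p : ℝ))⁻¹ := by
  have h2 : (2 : ℝ) ≤ p := by exact_mod_cast hp
  have h3 : 1 / (p : ℝ) ≤ 1 / 2 := one_div_le_one_div_of_le (by norm_num) h2
  have h4 : 0 < 1 / (p : ℝ) := by positivity
  rw [one_le_inv₀ (by linarith)]
  linarith

lemma one_le_hh (m : ℕ) : 1 ≤ hh m := by
  unfold hh
  calc (1 : ℝ) = ∏ _p ∈ m.primeFactors, (1 : ℝ) := by simp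
    _ ≤ _ := prod_le_prod (fun _ _ => zero_le_one)
        (fun p hp => one_le_fac (Nat.prime_of_mem_primeFactors hp).two_le)

lemma hh_eq (m : ℕ) (hm : 0 < m) : hh m = (m : ℝ) / m.totient := by
  have h := Nat.totient_eq_mul_prod_factors m
  have h2 : ((m.totient : ℚ) : ℝ) = ((m * ∏ p ∈ m.primeFactors, (1 - (p : ℚ)⁻¹) : ℚ) : ℝ) := by
    rw [h]
  push_cast at h2
  have hm0 : (m : ℝ) ≠ 0 := by exact_mod_cast hm.ne'
  rw [h2, div_mul_eq_div_div, div_self hm0, one_div, ← prod_inv_distrib]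
  unfold hh
  apply prod_congr rfl
  intro p _
  rw [one_div]

/-- the product over the primes up to `K` -/
noncomputable def W1 (K : ℕ) : ℝ := ∏ p ∈ (Ioc 0 K).filter Nat.Prime, (1 - 1 / (p : ℝ))⁻¹

lemma W1_one_le (K : ℕ) : 1 ≤ W1 K := by
  unfold W1
  calc (1 : ℝ) = ∏ _p ∈ (Ioc 0 K).filter Nat.Prime, (1 : ℝ) := by simp
    _ ≤ _ := prod_le_prod (fun _ _ => zero_le_one)
        (fun p hp => one_le_fac (mem_filter.1 hp).2.two_le)

lemma sum_tail (K X : ℕ) (hK : 1 ≤ K) :
    ∑ p ∈ (Ioc K X).filter Nat.Prime, 1 / ((p : ℝ) * (p - 1)) ≤ 1 / K := by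
  have h1 : ∑ p ∈ (Ioc K X).filter Nat.Prime, 1 / ((p : ℝ) * (p - 1)) ≤
      ∑ p ∈ Ioc K X, 1 / ((p : ℝ) * (p - 1)) := by
    apply sum_le_sum_of_subset_of_nonneg (filter_subset _ _)
    intro p hp _
    rw [mem_Ioc] at hp
    have : (1 : ℝ) ≤ p := by exact_mod_cast (by omega : 1 ≤ p)
    apply one_div_nonneg.2
    apply mul_nonneg <;> linarith
  refine h1.trans ?_
  by_cases hKX : K ≤ X
  · have h2 : ∀ n, K ≤ n → ∑ p ∈ Ioc K n, 1 / ((p : ℝ) * (p - 1)) = 1 / K - 1 / n := by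
      intro n hn
      induction n, hn using Nat.le_induction with
      | base => simp
      | succ n hn ih =>
        rw [← Finset.insert_Ioc_right_eq_Ioc_add_one (by omega), sum_insert (by simp), ih]
        have hn0 : (n : ℝ) ≠ 0 := by exact_mod_cast (by omega : n ≠ 0)
        have hn1 : (n : ℝ) + 1 ≠ 0 := by positivity
        push_cast
        rw [add_sub_cancel_right]
        field_simp
        ring
    rw [h2 X hKX]
    have : 0 ≤ 1 / (X : ℝ) := by positivity
    linarith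
  · rw [Ioc_eq_empty (by omega), sum_empty]
    positivity

/-- the moments of `m / φ(m)` -/
lemma moment (k X : ℕ) (hk : 1 ≤ k) :
    ∑ m ∈ Icc 1 X, hh m ^ k ≤ X * (W1 (k + 1) ^ k * Real.exp 2) := by
  obtain ⟨f, hf⟩ : ∃ f : ℕ → ℝ, f = fun p : ℕ => if 2 ≤ p then ((1 - 1 / (p : ℝ))⁻¹) ^ k - 1 else 0 := ⟨_, rfl⟩
  have hf0 : ∀ p, 0 ≤ f p := by
    intro p
    rw [hf]
    dsimp only
    split_ifs with h
    · have := one_le_pow₀ (one_le_fac h) (n := k)
      linarith
    · exact le_rfl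
  have h1 : ∀ m ∈ Icc 1 X, hh m ^ k = ∏ p ∈ m.primeFactors, (1 + f p) := by
    intro m _
    unfold hh
    rw [← prod_pow]
    apply prod_congr rfl
    intro p hp
    rw [hf]
    dsimp only
    rw [if_pos (Nat.prime_of_mem_primeFactors hp).two_le]
    ring
  rw [sum_congr rfl h1]
  refine (moment_gen X f hf0).trans ?_
  apply mul_le_mul_of_nonneg_left _ (Nat.cast_nonneg _)
  -- split the product at `k + 1`
  have hone : ∀ p, 1 ≤ 1 + f p / p := by
    intro p
    have : 0 ≤ f p / p := div_nonneg (hf0 p) (Nat.cast_nonneg _)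
    linarith
  have h2 : ∏ p ∈ (Ioc 0 X).filter Nat.Prime, (1 + f p / p) ≤
      (∏ p ∈ (Ioc 0 (k + 1)).filter Nat.Prime, (1 + f p / p)) *
        ∏ p ∈ (Ioc (k + 1) X).filter Nat.Prime, (1 + f p / p) := by
    rw [← prod_union]
    · apply prod_mono_one
      · intro p hp
        rw [mem_union, mem_filter, mem_filter, mem_Ioc, mem_Ioc]
        rw [mem_filter, mem_Ioc] at hp
        by_cases h : p ≤ k + 1
        · left; exact ⟨⟨hp.1.1, h⟩, hp.2⟩
        · right; exact ⟨⟨by omega, hp.1.2⟩, hp.2⟩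
      · intro p _
        exact hone p
    · rw [disjoint_left]
      intro p hp hp2
      rw [mem_filter, mem_Ioc] at hp hp2
      omega
  refine h2.trans ?_
  apply mul_le_mul
  · unfold W1
    rw [← prod_pow]
    apply prod_le_prod (fun p _ => by linarith [hone p])
    intro p hp
    have hpp := (mem_filter.1 hp).2
    have hp1 : (1 : ℝ) ≤ p := by exact_mod_cast hpp.one_le
    have h3 : f p / p ≤ f p := div_le_self (hf0 p) hp1
    have h4 : 1 + f p = ((1 - 1 / (p : ℝ))⁻¹) ^ k := by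
      rw [hf]
      dsimp only
      rw [if_pos hpp.two_le]
      ring
    linarith
  · have h3 : ∀ p ∈ (Ioc (k + 1) X).filter Nat.Prime, 1 + f p / p ≤
        Real.exp (2 * k * (1 / ((p : ℝ) * (p - 1)))) := by
      intro p hp
      rw [mem_filter, mem_Ioc] at hp
      have hk1 : (1 : ℝ) ≤ k := by exact_mod_cast hk
      have hpk : (k : ℝ) + 2 ≤ p := by exact_mod_cast (by omega : k + 2 ≤ p)
      have hp0 : (0 : ℝ) < p := by linarith
      have hp10 : (0 : ℝ) < (p : ℝ) - 1 := by linarith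
      have h4 : (1 - 1 / (p : ℝ))⁻¹ = 1 + 1 / ((p : ℝ) - 1) := by
        field_simp
        ring
      have h5 : (1 + 1 / ((p : ℝ) - 1)) ^ k ≤ 1 + 2 * (k / ((p : ℝ) - 1)) := by
        have e1 : 1 + 1 / ((p : ℝ) - 1) ≤ Real.exp (1 / ((p : ℝ) - 1)) := by
          have := Real.add_one_le_exp (1 / ((p : ℝ) - 1))
          linarith
        have e2 : (1 + 1 / ((p : ℝ) - 1)) ^ k ≤ Real.exp (k * (1 / ((p : ℝ) - 1))) := by
          rw [Real.exp_nat_mul]
          exact pow_le_pow_left₀ (by positivity) e1 k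
        refine e2.trans ?_
        have e3 : k * (1 / ((p : ℝ) - 1)) = k / ((p : ℝ) - 1) := by ring
        rw [e3]
        have e4 : 0 ≤ k / ((p : ℝ) - 1) := by positivity
        have e5 : k / ((p : ℝ) - 1) ≤ 1 := by
          rw [div_le_one hp10]
          linarith
        have e6 := Real.exp_bound' e4 e5 (n := 2) (by norm_num)
        norm_num [sum_range_succ, Nat.factorial] at e6
        nlinarith
      rw [hf]
      dsimp only
      rw [if_pos hp.2.two_le, h4]
      have h6 : ((1 + 1 / ((p : ℝ) - 1)) ^ k - 1) / p ≤ 2 * k * (1 / ((p : ℝ) * (p - 1))) := by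
        rw [div_le_iff₀ hp0]
        have : 2 * k * (1 / ((p : ℝ) * (p - 1))) * p = 2 * (k / ((p : ℝ) - 1)) := by
          field_simp
        rw [this]
        linarith
      have h7 := Real.add_one_le_exp (2 * k * (1 / ((p : ℝ) * (p - 1))))
      linarith
    refine (prod_le_prod (fun p _ => by linarith [hone p]) h3).trans ?_
    rw [← Real.exp_sum]
    apply Real.exp_le_exp.2
    rw [← mul_sum]
    have h4 := sum_tail (k + 1) X (by omega)
    have hk0 : (0 : ℝ) ≤ 2 * k := by positivity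
    have h5 := mul_le_mul_of_nonneg_left h4 hk0
    refine h5.trans ?_
    push_cast
    rw [mul_one_div, div_le_iff₀ (by positivity)]
    linarith
  · exact prod_nonneg fun p _ => by linarith [hone p]
  · have := W1_one_le (k + 1)
    positivity

end Pool.Agent.K4H8.DP
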