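import Pool.Agent.K4H8.DP.Siv2

/-!
# Numbers of primes `p` with `n - p`, `n' - p` prime, and with `p - 2` free of small primes
-/

set_option autoImplicit false

namespace Pool.Agent.K4H8.DP

open Finset
open Pool.Agent.Y843.HS (Pr VV)
open Pool.Agent.Y843.AC (OK Av APs S_UPA)

/-- the primes `p ≤ n` with `n - p` prime -/
def TT (n : ℕ) : Finset ℕ := (Ioc 0 n).filter (fun p => p.Prime ∧ (n - p).Prime)

lemma mem_TT {n p : ℕ} : p ∈ TT n ↔ p.Prime ∧ (n - p).Prime := by
  unfold TT
  rw [mem_filter, mem_Ioc]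
  constructor
  · exact fun h => h.2
  · rintro ⟨h1, h2⟩
    refine ⟨⟨h1.pos, ?_⟩, h1, h2⟩
    by_contra h3
    rw [show n - p = 0 by omega] at h2
    exact Nat.not_prime_zero h2

lemma lt_of_TT {n p : ℕ} (h : p ∈ TT n) : p < n := by
  rw [mem_TT] at h
  have := h.2.pos
  omega

/-- a prime `q > y` is not divisible by the primes `l ≤ y` -/
lemma not_dvd_of_lt {q l : ℕ} (hq : q.Prime) (hl : l.Prime) (h : l < q) : ¬ l ∣ q := by
  intro hd
  rcases (Nat.dvd_prime hq).1 hd with h1 | h1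
  · exact hl.one_lt.ne' h1
  · omega

lemma small_card (y X : ℕ) (f : ℕ → ℕ) (hf : Set.InjOn f (Ioc 0 X : Finset ℕ)) :
    ((Ioc 0 X).filter (fun p => f p ≤ y)).card ≤ y + 1 := by
  have h : (((Ioc 0 X).filter (fun p => f p ≤ y)).image f) ⊆ range (y + 1) := by
    intro x hx
    rw [mem_image] at hx
    obtain ⟨p, hp, rfl⟩ := hx
    rw [mem_range]
    have := (mem_filter.1 hp).2
    omega
  have h1 := card_le_card h
  rw [card_range, card_image_of_injOn] at h1
  · exact h1
  · intro a ha b hb hab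
    exact hf (mem_filter.1 (mem_coe.1 ha)).1 (mem_filter.1 (mem_coe.1 hb)).1 hab

open Classical in
/-- the primes `p ≤ 2 X` with `p - 2` free of the primes of `(3, z]` -/
noncomputable def RR (z X : ℕ) : Finset ℕ :=
  (Ioc 0 (2 * X)).filter (fun p => p.Prime ∧ ∀ l : ℕ, l.Prime → 3 < l → l ≤ z → ¬ l ∣ (p - 2))

lemma mem_RR {z X p : ℕ} : p ∈ RR z X ↔ (0 < p ∧ p ≤ 2 * X) ∧ p.Prime ∧
    ∀ l : ℕ, l.Prime → 3 < l → l ≤ z → ¬ l ∣ (p - 2) := by
  classical
  unfold RR
  rw [mem_filter, mem_Ioc]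

/-- the conclusions of the sieve bounds -/
lemma cnt_bounds {a b C : ℝ} {X₀ : ℕ} (ha : 0 < a) (hV : Mert a b) (hC : 0 < C) (hS : SB C X₀) :
    ∃ K : ℝ, 0 < K ∧ ∃ X₁ : ℕ, ∀ X : ℕ, X₁ ≤ X →
      (∀ n n' : ℕ, 0 < n → n < n' → n' ≤ 2 * X → ((TT n ∩ TT n').card : ℝ) ≤
        K * (X / Real.log X ^ 3 * (hh n * hh n' * hh (n' - n)))) ∧
      (∀ n : ℕ, 0 < n → n ≤ 2 * X → ((TT n).card : ℝ) ≤ K * (X / Real.log X ^ 2 * hh n)) ∧
      (∀ z : ℕ, 2 ≤ z → (z : ℝ) ≤ (X : ℝ) ^ (1 / 8 : ℝ) →
        ((RR z X).card : ℝ) ≤ K * (X / (Real.log X * Real.log z))) := by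
  obtain ⟨X₂, hX₂, hr⟩ := root_facts
  obtain ⟨K, hK⟩ : ∃ K : ℝ, K = 2 * C * 16 * ((8 / a) ^ 3 + (8 / a) ^ 2 + 8 / a * (1 / a)) + 1 := ⟨_, rfl⟩
  have h8a : 0 < 8 / a := by positivity
  refine ⟨K, by rw [hK]; positivity, max X₀ X₂, fun X hX => ?_⟩
  have hX0' : X₀ ≤ 2 * X := by
    have := (le_max_left X₀ X₂).trans hX
    omega
  obtain ⟨r1, r2, r3, r4⟩ := hr X ((le_max_right _ _).trans hX)
  have hX2 : 2 ≤ X := hX₂.trans ((le_max_right _ _).trans hX)
  obtain ⟨y, hy⟩ : ∃ y, y = ⌊((2 * X : ℕ) : ℝ) ^ (1 / 4 : ℝ)⌋₊ := ⟨_, rfl⟩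
  rw [← hy] at r1 r2 r4
  have hXr : (0 : ℝ) < X := by exact_mod_cast (by omega : 0 < X)
  obtain ⟨L, hL⟩ : ∃ L, L = Real.log (X : ℝ) := ⟨_, rfl⟩
  rw [← hL] at r2 r3 r4 ⊢
  have hL0 : 0 < L := by linarith
  have hWy : (W1 y)⁻¹ ≤ 8 / a / L := by
    have h1 := (hV y r1).1
    have h2 : a * (L / 8) ≤ W1 y := (mul_le_mul_of_nonneg_left r2 ha.le).trans h1
    have h3 : 8 / a / L = (a * (L / 8))⁻¹ := by
      field_simp
    rw [h3]
    exact inv_anti₀ (by positivity) h2
  have hWy0 : 0 < (W1 y)⁻¹ := inv_pos.2 (W1_pos y)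
  have hrt : ∀ l : ℕ, (l : ℝ) ≤ ((2 * X : ℕ) : ℝ) ^ (1 / 4 : ℝ) → l ≤ y := by
    intro l hl
    rw [hy]
    exact Nat.le_floor hl
  have hsieve := hS (2 * X) hX0'
  rw [← hy] at hsieve
  have hid : Set.InjOn (fun p : ℕ => p) (Ioc 0 (2 * X) : Finset ℕ) := fun a _ b _ h => h
  have hy1 : ((y + 1 : ℕ) : ℝ) ≤ X / L ^ 3 := by
    push_cast
    have : (0 : ℝ) ≤ (y : ℝ) + 1 := by positivity
    linarith
  have hLpow : X / L ^ 3 ≤ X / L ^ 2 := by
    apply div_le_div_of_nonneg_left hXr.le (by positivity)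
    exact pow_le_pow_right₀ r3 (by norm_num)
  refine ⟨?_, ?_, ?_⟩
  · -- triples
    intro n n' hn hnn hn'
    have hcov : TT n ∩ TT n' ⊆ ((TT n ∩ TT n').filter (fun p => y < p ∧ y < n - p ∧ y < n' - p)) ∪
        (((Ioc 0 (2 * X)).filter (fun p => p ≤ y)) ∪ (((Ioc 0 n).filter (fun p => n - p ≤ y)) ∪
          ((Ioc 0 n').filter (fun p => n' - p ≤ y)))) := by
      intro p hp
      have h1 := lt_of_TT (mem_inter.1 hp).1
      have h2 := lt_of_TT (mem_inter.1 hp).2
      have h3 := (mem_TT.1 (mem_inter.1 hp).1).1.pos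
      rw [mem_union, mem_union, mem_union, mem_filter, mem_filter, mem_filter, mem_filter, mem_Ioc, mem_Ioc, mem_Ioc]
      by_cases c1 : p ≤ y
      · right; left; exact ⟨by omega, c1⟩
      · by_cases c2 : n - p ≤ y
        · right; right; left; exact ⟨by omega, c2⟩
        · by_cases c3 : n' - p ≤ y
          · right; right; right; exact ⟨by omega, c3⟩
          · left; exact ⟨hp, by omega, by omega, by omega⟩
    have hc := card_le_card hcov
    have k1 := small_card y (2 * X) (fun p => p) hid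
    have k2 := small_card y n (fun p => n - p) (by
      intro a ha b hb h
      rw [mem_coe, mem_Ioc] at ha hb
      dsimp only at h
      omega)
    have k3 := small_card y n' (fun p => n' - p) (by
      intro a ha b hb h
      rw [mem_coe, mem_Ioc] at ha hb
      dsimp only at h
      omega)
    have k4 := hc.trans (card_union_le _ _)
    have k5 := card_union_le ((Ioc 0 (2 * X)).filter (fun p => p ≤ y)) (((Ioc 0 n).filter (fun p => n - p ≤ y)) ∪
          ((Ioc 0 n').filter (fun p => n' - p ≤ y)))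
    have k6 := card_union_le ((Ioc 0 n).filter (fun p => n - p ≤ y)) ((Ioc 0 n').filter (fun p => n' - p ≤ y))
    have k7 : (TT n ∩ TT n').card ≤
        ((TT n ∩ TT n').filter (fun p => y < p ∧ y < n - p ∧ y < n' - p)).card + 3 * (y + 1) := by omega
    have k8 := hsieve (Z3 n n') (Z3_ok n n' _) ((TT n ∩ TT n').filter (fun p => y < p ∧ y < n - p ∧ y < n' - p))
      (by
        intro p hp
        rw [mem_filter, mem_inter] at hp
        have := lt_of_TT hp.1.1
        rw [mem_Ioc]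
        omega)
      (by
        intro p hp l hl hlX hmem
        rw [mem_filter, mem_inter, mem_TT, mem_TT] at hp
        obtain ⟨⟨⟨p1, p2⟩, ⟨-, p3⟩⟩, p4, p5, p6⟩ := hp
        have hly := hrt l hlX
        unfold Z3 at hmem
        have hd0 : p % l ≠ 0 := fun h => not_dvd_of_lt p1 hl (by omega) (Nat.dvd_of_mod_eq_zero h)
        split_ifs at hmem
        · exact hd0 (mem_singleton.1 hmem)
        · rw [mem_insert, mem_insert, mem_singleton] at hmem
          rcases hmem with h | h | h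
          · exact hd0 h
          · exact not_dvd_of_lt p2 hl (by omega) ((Nat.modEq_iff_dvd' (by omega)).1 h)
          · exact not_dvd_of_lt p3 hl (by omega) ((Nat.modEq_iff_dvd' (by omega)).1 h))
    have k9 := VV3 hn hnn y
    obtain ⟨H, hH⟩ : ∃ H, H = hh n * hh n' * hh (n' - n) := ⟨_, rfl⟩
    rw [← hH] at k9 ⊢
    have hH1 : 1 ≤ H := by
      rw [hH]
      exact one_le_mul_of_one_le_of_one_le (one_le_mul_of_one_le_of_one_le (one_le_hh _) (one_le_hh _)) (one_le_hh _)
    have k10 : (W1 y)⁻¹ ^ 3 ≤ (8 / a) ^ 3 / L ^ 3 := by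
      rw [← div_pow]
      exact pow_le_pow_left₀ hWy0.le hWy 3
    have k11 : ((TT n ∩ TT n').card : ℝ) ≤
        ((TT n ∩ TT n').filter (fun p => y < p ∧ y < n - p ∧ y < n' - p)).card + 3 * ((y : ℝ) + 1) := by
      exact_mod_cast k7
    have k12 : C * ((2 * X : ℕ) : ℝ) * VV (Z3 n n') 0 y ≤ 2 * C * 16 * (8 / a) ^ 3 * (X / L ^ 3 * H) := by
      push_cast
      calc C * (2 * X) * VV (Z3 n n') 0 y ≤ C * (2 * X) * (16 * ((8 / a) ^ 3 / L ^ 3) * H) := by
            apply mul_le_mul_of_nonneg_left _ (by positivity)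
            refine k9.trans ?_
            gcongr
        _ = _ := by ring
    have k13 : X / L ^ 3 ≤ X / L ^ 3 * H := by
      have : 0 ≤ X / L ^ 3 := by positivity
      nlinarith
    have k14 : 0 ≤ X / L ^ 3 * H := by positivity
    have k15 : 2 * C * 16 * (8 / a) ^ 3 + 1 ≤ K := by
      rw [hK]
      have : 0 ≤ 2 * C * 16 * ((8 / a) ^ 2 + 8 / a * (1 / a)) := by positivity
      linarith
    calc ((TT n ∩ TT n').card : ℝ) ≤ 2 * C * 16 * (8 / a) ^ 3 * (X / L ^ 3 * H) + X / L ^ 3 * H := by linarith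
      _ = (2 * C * 16 * (8 / a) ^ 3 + 1) * (X / L ^ 3 * H) := by ring
      _ ≤ _ := mul_le_mul_of_nonneg_right k15 k14
  · -- pairs
    intro n hn hn'
    have hcov : TT n ⊆ ((TT n).filter (fun p => y < p ∧ y < n - p)) ∪
        (((Ioc 0 (2 * X)).filter (fun p => p ≤ y)) ∪ ((Ioc 0 n).filter (fun p => n - p ≤ y))) := by
      intro p hp
      have h1 := lt_of_TT hp
      have h3 := (mem_TT.1 hp).1.pos
      rw [mem_union, mem_union, mem_filter, mem_filter, mem_filter, mem_Ioc, mem_Ioc]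
      by_cases c1 : p ≤ y
      · right; left; exact ⟨by omega, c1⟩
      · by_cases c2 : n - p ≤ y
        · right; right; exact ⟨by omega, c2⟩
        · left; exact ⟨hp, by omega, by omega⟩
    have hc := card_le_card hcov
    have k1 := small_card y (2 * X) (fun p => p) hid
    have k2 := small_card y n (fun p => n - p) (by
      intro a ha b hb h
      rw [mem_coe, mem_Ioc] at ha hb
      dsimp only at h
      omega)
    have k4 := hc.trans (card_union_le _ _)
    have k5 := card_union_le ((Ioc 0 (2 * X)).filter (fun p => p ≤ y)) ((Ioc 0 n).filter (fun p => n - p ≤ y))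
    have k7 : (TT n).card ≤ ((TT n).filter (fun p => y < p ∧ y < n - p)).card + 3 * (y + 1) := by omega
    have k8 := hsieve (Z2 n) (Z2_ok n _) ((TT n).filter (fun p => y < p ∧ y < n - p))
      (by
        intro p hp
        rw [mem_filter] at hp
        have := lt_of_TT hp.1
        rw [mem_Ioc]
        omega)
      (by
        intro p hp l hl hlX hmem
        rw [mem_filter, mem_TT] at hp
        obtain ⟨⟨p1, p2⟩, p4, p5⟩ := hp
        have hly := hrt l hlX
        unfold Z2 at hmem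
        have hd0 : p % l ≠ 0 := fun h => not_dvd_of_lt p1 hl (by omega) (Nat.dvd_of_mod_eq_zero h)
        split_ifs at hmem
        · exact hd0 (mem_singleton.1 hmem)
        · rw [mem_insert, mem_singleton] at hmem
          rcases hmem with h | h
          · exact hd0 h
          · exact not_dvd_of_lt p2 hl (by omega) ((Nat.modEq_iff_dvd' (by omega)).1 h))
    have k9 := VV2 hn y
    have hH1 := one_le_hh n
    have k10 : (W1 y)⁻¹ ^ 2 ≤ (8 / a) ^ 2 / L ^ 2 := by
      rw [← div_pow]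
      exact pow_le_pow_left₀ hWy0.le hWy 2
    have k11 : ((TT n).card : ℝ) ≤ ((TT n).filter (fun p => y < p ∧ y < n - p)).card + 3 * ((y : ℝ) + 1) := by
      exact_mod_cast k7
    have k12 : C * ((2 * X : ℕ) : ℝ) * VV (Z2 n) 0 y ≤ 2 * C * 16 * (8 / a) ^ 2 * (X / L ^ 2 * hh n) := by
      push_cast
      calc C * (2 * X) * VV (Z2 n) 0 y ≤ C * (2 * X) * (16 * ((8 / a) ^ 2 / L ^ 2) * hh n) := by
            apply mul_le_mul_of_nonneg_left _ (by positivity)
            refine k9.trans ?_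
            gcongr
        _ = _ := by ring
    have k13 : X / L ^ 3 ≤ X / L ^ 2 * hh n := by
      have : 0 ≤ X / L ^ 2 := by positivity
      nlinarith
    have k14 : 0 ≤ X / L ^ 2 * hh n := by positivity
    have k15 : 2 * C * 16 * (8 / a) ^ 2 + 1 ≤ K := by
      rw [hK]
      have : 0 ≤ 2 * C * 16 * ((8 / a) ^ 3 + 8 / a * (1 / a)) := by positivity
      linarith
    calc ((TT n).card : ℝ) ≤ 2 * C * 16 * (8 / a) ^ 2 * (X / L ^ 2 * hh n) + X / L ^ 2 * hh n := by linarith
      _ = (2 * C * 16 * (8 / a) ^ 2 + 1) * (X / L ^ 2 * hh n) := by ring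
      _ ≤ _ := mul_le_mul_of_nonneg_right k15 k14
  · -- the shifted primes
    intro z hz hzX
    obtain ⟨Rz, hRz⟩ : ∃ Rz, Rz = RR z X := ⟨_, rfl⟩
    rw [← hRz]
    have hzy : z ≤ y := by
      apply hrt
      refine hzX.trans ?_
      have hX1 : (1 : ℝ) ≤ X := by exact_mod_cast (by omega : 1 ≤ X)
      calc (X : ℝ) ^ (1 / 8 : ℝ) ≤ (X : ℝ) ^ (1 / 4 : ℝ) :=
            Real.rpow_le_rpow_of_exponent_le hX1 (by norm_num)
        _ ≤ _ := by
            apply Real.rpow_le_rpow hXr.le _ (by norm_num)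
            push_cast
            linarith
    have hcov : Rz ⊆ (Rz.filter (fun p => y < p)) ∪ ((Ioc 0 (2 * X)).filter (fun p => p ≤ y)) := by
      intro p hp
      rw [mem_union, mem_filter, mem_filter]
      by_cases c1 : p ≤ y
      · right
        refine ⟨?_, c1⟩
        rw [hRz, mem_RR] at hp
        exact mem_Ioc.2 hp.1
      · left; exact ⟨hp, by omega⟩
    have k1 := small_card y (2 * X) (fun p => p) hid
    have k4 := (card_le_card hcov).trans (card_union_le _ _)
    have k7 : Rz.card ≤ (Rz.filter (fun p => y < p)).card + 3 * (y + 1) := by omega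
    have k8 := hsieve (Zs z) (Zs_ok z _) (Rz.filter (fun p => y < p))
      (by
        intro p hp
        rw [mem_filter, hRz, mem_RR] at hp
        exact mem_Ioc.2 hp.1.1)
      (by
        intro p hp l hl hlX hmem
        rw [mem_filter, hRz, mem_RR] at hp
        obtain ⟨⟨p0, p1, p2⟩, p4⟩ := hp
        have hly := hrt l hlX
        unfold Zs at hmem
        have hd0 : p % l ≠ 0 := fun h => not_dvd_of_lt p1 hl (by omega) (Nat.dvd_of_mod_eq_zero h)
        split_ifs at hmem with hc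
        · rw [mem_insert, mem_singleton] at hmem
          rcases hmem with h | h
          · exact hd0 h
          · exact p2 l hl hc.1 hc.2 ((Nat.modEq_iff_dvd' (by have := p1.two_le; omega)).1 h.symm)
        · exact hd0 (mem_singleton.1 hmem))
    have k9 := VVs hzy
    have hlz : 0 < Real.log z := Real.log_pos (by exact_mod_cast (by omega : 1 < z))
    have hWz : (W1 z)⁻¹ ≤ 1 / a / Real.log z := by
      have h1 := (hV z hz).1
      have h3 : 1 / a / Real.log z = (a * Real.log z)⁻¹ := by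
        field_simp
      rw [h3]
      exact inv_anti₀ (by positivity) h1
    have hWz0 : 0 < (W1 z)⁻¹ := inv_pos.2 (W1_pos z)
    have hlzL : Real.log z ≤ L := by
      rw [hL]
      apply Real.log_le_log (by exact_mod_cast (by omega : 0 < z))
      refine hzX.trans ?_
      have hX1 : (1 : ℝ) ≤ X := by exact_mod_cast (by omega : 1 ≤ X)
      calc (X : ℝ) ^ (1 / 8 : ℝ) ≤ (X : ℝ) ^ (1 : ℝ) :=
            Real.rpow_le_rpow_of_exponent_le hX1 (by norm_num)
        _ = X := Real.rpow_one _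
    have k11 : (Rz.card : ℝ) ≤ (Rz.filter (fun p => y < p)).card + 3 * ((y : ℝ) + 1) := by
      exact_mod_cast k7
    have k12 : C * ((2 * X : ℕ) : ℝ) * VV (Zs z) 0 y ≤
        2 * C * 16 * (8 / a * (1 / a)) * (X / (L * Real.log z)) := by
      push_cast
      calc C * (2 * X) * VV (Zs z) 0 y ≤ C * (2 * X) * (16 * (8 / a / L) * (1 / a / Real.log z)) := by
            apply mul_le_mul_of_nonneg_left _ (by positivity)
            refine k9.trans ?_
            gcongr
        _ = _ := by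
            field_simp
    have k13 : X / L ^ 3 ≤ X / (L * Real.log z) := by
      apply div_le_div_of_nonneg_left hXr.le (by positivity)
      have : L * Real.log z ≤ L * L := mul_le_mul_of_nonneg_left hlzL hL0.le
      nlinarith [mul_nonneg hL0.le (mul_nonneg hL0.le (show (0 : ℝ) ≤ L - 1 by linarith))]
    have k14 : 0 ≤ X / (L * Real.log z) := by positivity
    have k15 : 2 * C * 16 * (8 / a * (1 / a)) + 1 ≤ K := by
      rw [hK]
      have : 0 ≤ 2 * C * 16 * ((8 / a) ^ 3 + (8 / a) ^ 2) := by positivity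
      linarith
    calc (Rz.card : ℝ) ≤ 2 * C * 16 * (8 / a * (1 / a)) * (X / (L * Real.log z)) + X / (L * Real.log z) := by
          linarith
      _ = (2 * C * 16 * (8 / a * (1 / a)) + 1) * (X / (L * Real.log z)) := by ring
      _ ≤ _ := mul_le_mul_of_nonneg_right k15 k14

end Pool.Agent.K4H8.DP
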