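import Pool.Agent.K4H8.DP.Cnt

/-!
# The lower bound: sets of primes whose deletion destroys all representations of many integers
-/

set_option autoImplicit false

namespace Pool.Agent.K4H8.DP

open Finset

open Classical in
/-- the even numbers up to `X`, congruent to `2` modulo `q`, without the property `G`, are few -/
def Few (G : ℕ → Prop) (X₀ : ℕ) : Prop := ∀ X : ℕ, X₀ ≤ X → ∀ q : ℕ, 1 ≤ q → (q : ℝ) ≤ (X : ℝ) ^ (1 / 2 : ℝ) →
  (((Ioc 0 X).filter (fun n => 2 ∣ n ∧ n % q = 2 % q ∧ ¬ G n)).card : ℝ) ≤ X / (q * Real.log X)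

/-- the primes of `R` meet all partitions of `n` -/
def Hit (R : Finset ℕ) (n : ℕ) : Prop := ∀ p q : ℕ, p.Prime → q.Prime → p < q → p + q = n → p ∈ R ∨ q ∈ R

/-- many even numbers with the property `G` and bounded `hh` -/
lemma many_even {G : ℕ → Prop} {X₀ : ℕ} (hG : Few G X₀) : ∃ X₁ : ℕ, ∀ X : ℕ, X₁ ≤ X →
    ∃ N : Finset ℕ, (∀ n ∈ N, X < n ∧ n ≤ 2 * X ∧ 2 ∣ n ∧ G n ∧ hh n ≤ 480) ∧ (X : ℝ) / 8 ≤ N.card := by
  classical
  obtain ⟨x₀, hx₀⟩ := Filter.eventually_atTop.1 (Real.tendsto_log_atTop.eventually_ge_atTop 16)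
  refine ⟨max (max X₀ 64) ⌈x₀⌉₊, fun X hX => ?_⟩
  have hX1 : X₀ ≤ 2 * X := by
    have := (le_max_left X₀ 64).trans ((le_max_left _ _).trans hX)
    omega
  have hX64 : 64 ≤ X := (le_max_right X₀ 64).trans ((le_max_left _ _).trans hX)
  have hXr : (64 : ℝ) ≤ X := by exact_mod_cast hX64
  have hlog : 16 ≤ Real.log X := hx₀ X ((Nat.le_ceil _).trans (by
    exact_mod_cast (le_max_right _ _).trans hX))
  have hlog2 : 16 ≤ Real.log ((2 * X : ℕ) : ℝ) := by
    refine hlog.trans (Real.log_le_log (by linarith) ?_)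
    push_cast
    linarith
  obtain ⟨E, hE⟩ : ∃ E, E = (Ioc X (2 * X)).filter (fun n => 2 ∣ n) := ⟨_, rfl⟩
  have hEc : (X : ℝ) / 2 - 1 ≤ E.card := by
    have h1 : (Ioc (X / 2) X).image (fun t => 2 * t) ⊆ E := by
      intro n hn
      rw [mem_image] at hn
      obtain ⟨t, ht, rfl⟩ := hn
      rw [mem_Ioc] at ht
      rw [hE, mem_filter, mem_Ioc]
      exact ⟨by omega, dvd_mul_right _ _⟩
    have h2 := card_le_card h1
    rw [card_image_of_injective _ (fun a b h => by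
      have h' : 2 * a = 2 * b := h
      omega), Nat.card_Ioc] at h2
    have h3 : (X : ℝ) / 2 ≤ ((X - X / 2 : ℕ) : ℝ) := by
      have : X ≤ 2 * (X - X / 2) := by omega
      have h4 : (X : ℝ) ≤ 2 * ((X - X / 2 : ℕ) : ℝ) := by exact_mod_cast this
      linarith
    have h4 : ((X - X / 2 : ℕ) : ℝ) ≤ E.card := by exact_mod_cast h2
    linarith
  obtain ⟨B1, hB1⟩ : ∃ B1, B1 = (Ioc 0 (2 * X)).filter (fun n => 2 ∣ n ∧ n % 1 = 2 % 1 ∧ ¬ G n) := ⟨_, rfl⟩
  obtain ⟨B2, hB2⟩ : ∃ B2, B2 = (Icc 1 (2 * X)).filter (fun n => ¬ hh n ≤ 480) := ⟨_, rfl⟩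
  have hB1c : (B1.card : ℝ) ≤ X / 8 := by
    have h1 := hG (2 * X) hX1 1 le_rfl (by
      rw [Nat.cast_one]
      apply Real.one_le_rpow _ (by norm_num)
      push_cast
      linarith)
    rw [hB1]
    refine h1.trans ?_
    rw [Nat.cast_one, one_mul, div_le_iff₀ (by linarith)]
    push_cast at hlog2 ⊢
    nlinarith
  have hB2c : (B2.card : ℝ) ≤ X / 8 := by
    have h1 := moment 1 (2 * X) le_rfl
    have h2 : (480 : ℝ) * B2.card ≤ ∑ m ∈ Icc 1 (2 * X), hh m ^ 1 := by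
      calc (480 : ℝ) * B2.card = ∑ _m ∈ B2, (480 : ℝ) := by rw [sum_const, nsmul_eq_mul]; ring
        _ ≤ ∑ m ∈ B2, hh m ^ 1 := by
            apply sum_le_sum
            intro m hm
            rw [hB2, mem_filter] at hm
            rw [pow_one]
            linarith [not_le.1 hm.2]
        _ ≤ _ := by
            apply sum_le_sum_of_subset_of_nonneg
            · rw [hB2]
              exact filter_subset _ _
            · intro m _ _
              rw [pow_one]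
              linarith [one_le_hh m]
    have h3 : W1 (1 + 1) = 2 := by
      unfold W1
      have : (Ioc 0 (1 + 1)).filter Nat.Prime = {2} := by decide
      rw [this, prod_singleton]
      norm_num
    rw [h3] at h1
    have h4 : Real.exp 2 ≤ 8 := by
      have h5 : Real.exp 2 = Real.exp 1 * Real.exp 1 := by
        rw [← Real.exp_add]
        norm_num
      rw [h5]
      nlinarith [Real.exp_one_lt_d9, Real.exp_pos 1]
    push_cast at h1
    nlinarith
  refine ⟨E \ (B1 ∪ B2), ?_, ?_⟩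
  · intro n hn
    rw [mem_sdiff, mem_union, hE, hB1, hB2, mem_filter, mem_filter, mem_filter, mem_Ioc, mem_Ioc, mem_Icc] at hn
    obtain ⟨⟨⟨h1, h2⟩, h3⟩, h4⟩ := hn
    push Not at h4
    refine ⟨h1, h2, h3, h4.1 (by omega) h3 (by omega), h4.2 (by omega)⟩
  · have h1 : E.card ≤ (E \ (B1 ∪ B2)).card + (B1.card + B2.card) := by
      have h2 := card_le_card_sdiff_add_card (s := E) (t := B1 ∪ B2)
      have h3 := card_union_le B1 B2
      omega
    have h2 : (E.card : ℝ) ≤ (E \ (B1 ∪ B2)).card + (B1.card + B2.card) := by exact_mod_cast h1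
    linarith

/-- the first construction -/
lemma low1 {G : ℕ → Prop} {X₀ : ℕ} (hG : Few G X₀) {K : ℝ} (hK : 0 < K) {X₁ : ℕ}
    (h2 : ∀ X : ℕ, X₁ ≤ X → ∀ n : ℕ, 0 < n → n ≤ 2 * X → ((TT n).card : ℝ) ≤ K * (X / Real.log X ^ 2 * hh n)) :
    ∃ X₂ : ℕ, ∀ X : ℕ, X₂ ≤ X → ∀ ρ : ℝ, 0 < ρ → ρ ≤ 1 → 2 * (480 * K + 1) ≤ ρ * Real.log X →
      ∃ R N : Finset ℕ, (∀ p ∈ R, p.Prime ∧ p ≤ 2 * X) ∧ (R.card : ℝ) ≤ ρ * (X / Real.log X) ∧
        (∀ n ∈ N, X < n ∧ n ≤ 2 * X ∧ 2 ∣ n ∧ G n ∧ Hit R n) ∧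
        1 / (2 * (480 * K + 1)) * (ρ * Real.log X) ≤ N.card := by
  classical
  obtain ⟨X₃, h3⟩ := many_even hG
  obtain ⟨x₀, hx₀⟩ := Filter.eventually_atTop.1 ((Real.tendsto_log_atTop.eventually_ge_atTop 1).and
    ((isLittleO_log_rpow_atTop (show (0 : ℝ) < 1 by norm_num)).bound (show (0 : ℝ) < 1 / 8 by norm_num)))
  refine ⟨max (max X₁ X₃) (max ⌈x₀⌉₊ 1), fun X hX ρ hρ hρ1 hρL => ?_⟩
  have e1 : X₁ ≤ X := (le_max_left _ _).trans ((le_max_left _ _).trans hX)
  have e3 : X₃ ≤ X := (le_max_right _ _).trans ((le_max_left _ _).trans hX)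
  have hX1 : 1 ≤ X := (le_max_right _ _).trans ((le_max_right _ _).trans hX)
  have hXr : (0 : ℝ) < X := by exact_mod_cast hX1
  obtain ⟨hl1, hl2⟩ := hx₀ X ((Nat.le_ceil _).trans (by
    exact_mod_cast (le_max_left _ _).trans ((le_max_right _ _).trans hX)))
  obtain ⟨L, hL⟩ : ∃ L, L = Real.log (X : ℝ) := ⟨_, rfl⟩
  rw [Real.rpow_one, Real.norm_of_nonneg (by linarith), Real.norm_of_nonneg hXr.le, ← hL] at hl2
  rw [← hL] at hl1 hρL ⊢
  have hL0 : 0 < L := by linarith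
  obtain ⟨N₀, hN₀, hN₀c⟩ := h3 X e3
  obtain ⟨c₁, hc₁⟩ : ∃ c₁ : ℝ, c₁ = 1 / (480 * K + 1) := ⟨_, rfl⟩
  have hc₁0 : 0 < c₁ := by rw [hc₁]; positivity
  have hc₁1 : c₁ ≤ 1 := by
    rw [hc₁, div_le_one (by positivity)]
    linarith
  obtain ⟨M, hM⟩ : ∃ M : ℕ, M = ⌊c₁ * (ρ * L)⌋₊ := ⟨_, rfl⟩
  have hρL0 : 0 < ρ * L := by positivity
  have hM1 : (M : ℝ) ≤ c₁ * (ρ * L) := by
    rw [hM]
    exact Nat.floor_le (by positivity)
  have hM2 : c₁ * (ρ * L) < M + 1 := by
    rw [hM]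
    exact Nat.lt_floor_add_one _
  have hMN : M ≤ N₀.card := by
    have h4 : (M : ℝ) ≤ N₀.card := by
      have h5 : ρ * L ≤ L := by nlinarith
      have h6 : c₁ * (ρ * L) ≤ ρ * L := by nlinarith
      linarith
    exact_mod_cast h4
  obtain ⟨N, hNs, hNc⟩ := exists_subset_card_eq hMN
  obtain ⟨R, hR⟩ : ∃ R, R = N.biUnion TT := ⟨_, rfl⟩
  refine ⟨R, N, ?_, ?_, ?_, ?_⟩
  · intro p hp
    rw [hR, mem_biUnion] at hp
    obtain ⟨n, hn, hp⟩ := hp
    have h5 := hN₀ n (hNs hn)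
    have h6 := lt_of_TT hp
    exact ⟨(mem_TT.1 hp).1, by omega⟩
  · have h4 : R.card ≤ ∑ n ∈ N, (TT n).card := by
      rw [hR]
      exact card_biUnion_le
    have h5 : (R.card : ℝ) ≤ ∑ n ∈ N, ((TT n).card : ℝ) := by exact_mod_cast h4
    refine h5.trans ?_
    have h6 : ∀ n ∈ N, ((TT n).card : ℝ) ≤ K * (X / L ^ 2 * 480) := by
      intro n hn
      have h7 := hN₀ n (hNs hn)
      have h8 := h2 X e1 n (by omega) h7.2.1
      rw [← hL] at h8
      refine h8.trans ?_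
      have := h7.2.2.2.2
      gcongr
    refine (sum_le_sum h6).trans ?_
    rw [sum_const, nsmul_eq_mul, hNc]
    calc (M : ℝ) * (K * (X / L ^ 2 * 480)) ≤ (c₁ * (ρ * L)) * (K * (X / L ^ 2 * 480)) :=
          mul_le_mul_of_nonneg_right hM1 (by positivity)
      _ = (c₁ * (480 * K)) * (ρ * (X / L)) := by
          field_simp
      _ ≤ 1 * (ρ * (X / L)) := by
          apply mul_le_mul_of_nonneg_right _ (by positivity)
          rw [hc₁, one_div_mul_eq_div, div_le_one (by positivity)]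
          linarith
      _ = _ := one_mul _
  · intro n hn
    obtain ⟨a1, a2, a3, a4, -⟩ := hN₀ n (hNs hn)
    refine ⟨a1, a2, a3, a4, ?_⟩
    intro p q hp hq hpq hn'
    left
    rw [hR, mem_biUnion]
    refine ⟨n, hn, ?_⟩
    rw [mem_TT]
    refine ⟨hp, ?_⟩
    rw [show n - p = q by omega]
    exact hq
  · rw [hNc]
    have h4 : 2 ≤ c₁ * (ρ * L) := by
      rw [hc₁, one_div_mul_eq_div, le_div_iff₀ (by positivity)]
      exact hρL
    have h5 : 1 / (2 * (480 * K + 1)) * (ρ * L) = c₁ * (ρ * L) / 2 := by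
      rw [hc₁]
      field_simp
    rw [h5]
    linarith

/-- the second construction -/
lemma low2 {G : ℕ → Prop} {X₀ : ℕ} (hG : Few G X₀) {K : ℝ} (hK : 0 < K) {X₁ : ℕ}
    (h2 : ∀ X : ℕ, X₁ ≤ X → ∀ z : ℕ, 2 ≤ z → (z : ℝ) ≤ (X : ℝ) ^ (1 / 8 : ℝ) →
        ((RR z X).card : ℝ) ≤ K * (X / (Real.log X * Real.log z))) :
    ∃ X₂ : ℕ, ∀ X : ℕ, X₂ ≤ X → ∀ ρ : ℝ, 0 < ρ → ρ ≤ 1 →
      (2 * K + 2) / ρ ≤ Real.log (Real.log X) / 2 →
      ∃ R N : Finset ℕ, (∀ p ∈ R, p.Prime ∧ p ≤ 2 * X) ∧ (R.card : ℝ) ≤ ρ * (X / Real.log X) ∧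
        (∀ n ∈ N, X < n ∧ n ≤ 2 * X ∧ 2 ∣ n ∧ G n ∧ Hit R n) ∧
        X * Real.exp (- Real.exp ((2 * K + 4) / ρ)) ≤ N.card := by
  classical
  have ev1 := (isLittleO_log_rpow_rpow_atTop (1 : ℝ) (show (0 : ℝ) < 1 / 8 by norm_num)).bound one_pos
  obtain ⟨x₀, hx₀⟩ := Filter.eventually_atTop.1 ((Real.tendsto_log_atTop.eventually_ge_atTop 64).and ev1)
  refine ⟨max (max X₁ X₀) (max ⌈x₀⌉₊ 64), fun X hX ρ hρ hρ1 hρL => ?_⟩
  have e1 : X₁ ≤ X := (le_max_left _ _).trans ((le_max_left _ _).trans hX)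
  have e0 : X₀ ≤ 2 * X := by
    have := (le_max_right X₁ X₀).trans ((le_max_left _ _).trans hX)
    omega
  have hX64 : 64 ≤ X := (le_max_right _ _).trans ((le_max_right _ _).trans hX)
  have hXr : (64 : ℝ) ≤ X := by exact_mod_cast hX64
  obtain ⟨hl1, hl2⟩ := hx₀ X ((Nat.le_ceil _).trans (by
    exact_mod_cast (le_max_left _ _).trans ((le_max_right _ _).trans hX)))
  obtain ⟨L, hL⟩ : ∃ L, L = Real.log (X : ℝ) := ⟨_, rfl⟩
  rw [Real.rpow_one, one_mul, Real.norm_of_nonneg (by linarith),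
    Real.norm_of_nonneg (Real.rpow_nonneg (by linarith) _), ← hL] at hl2
  rw [← hL] at hl1 hρL ⊢
  have hL0 : 0 < L := by linarith
  obtain ⟨v, hv⟩ : ∃ v, v = (2 * K + 2) / ρ := ⟨_, rfl⟩
  rw [← hv] at hρL
  have hv2 : 2 ≤ v := by
    rw [hv, le_div_iff₀ hρ]
    nlinarith
  obtain ⟨z, hz⟩ : ∃ z : ℕ, z = ⌊Real.exp v⌋₊ := ⟨_, rfl⟩
  have hexpv : 4 ≤ Real.exp v := by
    have h3 := Real.add_one_le_exp (v / 2)
    have h4 : Real.exp v = Real.exp (v / 2) * Real.exp (v / 2) := by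
      rw [← Real.exp_add]
      congr 1
      ring
    rw [h4]
    nlinarith
  have hz1 : (z : ℝ) ≤ Real.exp v := by
    rw [hz]
    exact Nat.floor_le (Real.exp_pos v).le
  have hz2 : Real.exp v < z + 1 := by
    rw [hz]
    exact Nat.lt_floor_add_one _
  have hz3 : (3 : ℝ) < z := by linarith
  have hz3' : 3 < z := by exact_mod_cast hz3
  have hzhalf : Real.exp v / 2 ≤ z := by linarith
  -- `exp v ≤ √L`
  have hsq : Real.exp v * Real.exp v ≤ L := by
    rw [← Real.exp_add]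
    calc Real.exp (v + v) ≤ Real.exp (Real.log L) := by
          apply Real.exp_le_exp.2
          linarith
      _ = L := Real.exp_log hL0
  have hzL : 4 * (z : ℝ) ≤ L := by nlinarith
  have hzX : (z : ℝ) ≤ (X : ℝ) ^ (1 / 8 : ℝ) := by linarith
  have hlz : K / ρ ≤ Real.log z := by
    have h3 := Real.log_le_log (by positivity) hzhalf
    rw [Real.log_div (Real.exp_pos v).ne' (by norm_num), Real.log_exp] at h3
    have h4 := Real.log_two_lt_d9
    have h5 : v = 2 * (K / ρ) + 2 / ρ := by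
      rw [hv]
      ring
    have h6 : 0 < K / ρ := by positivity
    have h7 : 0 < 2 / ρ := by positivity
    linarith
  have hlz0 : 0 < Real.log z := lt_of_lt_of_le (by positivity) hlz
  obtain ⟨W, hW⟩ : ∃ W, W = primorial z := ⟨_, rfl⟩
  have hW0 : 0 < W := by rw [hW]; exact primorial_pos z
  have hWd : ∀ l : ℕ, l.Prime → l ≤ z → l ∣ W := by
    intro l hl hlz
    rw [hW]
    exact (Nat.Prime.dvd_primorial_iff hl).2 hlz
  have hWr : (0 : ℝ) < W := by exact_mod_cast hW0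
  have hW4 : (W : ℝ) ≤ Real.exp (2 * z) := by
    have h3 : W ≤ 4 ^ z := by rw [hW]; exact primorial_le_four_pow z
    have h4 : (W : ℝ) ≤ (4 : ℝ) ^ z := by exact_mod_cast h3
    refine h4.trans ?_
    have h5 : (4 : ℝ) ≤ Real.exp 2 := by
      have h6 : Real.exp 2 = Real.exp 1 * Real.exp 1 := by
        rw [← Real.exp_add]
        norm_num
      have := Real.exp_one_gt_d9
      rw [h6]
      nlinarith
    calc (4 : ℝ) ^ z ≤ Real.exp 2 ^ z := pow_le_pow_left₀ (by norm_num) h5 z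
      _ = Real.exp (2 * z) := by
          rw [← Real.exp_nat_mul]
          congr 1
          ring
  have hWX : (W : ℝ) ≤ Real.exp (L / 2) := hW4.trans (Real.exp_le_exp.2 (by linarith))
  have hexpL : Real.exp (L / 2) * Real.exp (L / 2) = X := by
    rw [← Real.exp_add, add_halves, hL, Real.exp_log (by linarith)]
  have hexp16 : 32 ≤ Real.exp (L / 2) := by
    have := Real.add_one_le_exp (L / 2)
    linarith
  have hXW : 32 * (W : ℝ) ≤ X := by
    rw [← hexpL]
    exact mul_le_mul hexp16 hWX hWr.le (Real.exp_pos _).le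
  -- the integers
  obtain ⟨E, hE⟩ : ∃ E, E = (Ioc (X / W) ((2 * X - 2) / W)).image (fun t => 2 + W * t) := ⟨_, rfl⟩
  have hEm : ∀ n ∈ E, X < n ∧ n ≤ 2 * X ∧ W ∣ n - 2 ∧ 2 ∣ n ∧ n % W = 2 % W ∧ 2 ≤ n := by
    intro n hn
    rw [hE, mem_image] at hn
    obtain ⟨t, ht, rfl⟩ := hn
    rw [mem_Ioc] at ht
    have h3 : X < W * t := by
      have := Nat.lt_mul_div_succ X hW0
      calc X < W * (X / W + 1) := this
        _ ≤ W * t := Nat.mul_le_mul_left W ht.1
    have h4 : W * t ≤ 2 * X - 2 := by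
      have := Nat.mul_div_le (2 * X - 2) W
      exact (Nat.mul_le_mul_left W ht.2).trans this
    refine ⟨by omega, by omega, ?_, ?_, ?_, by omega⟩
    · rw [Nat.add_sub_cancel_left]
      exact dvd_mul_right _ _
    · have h5 : 2 ∣ W := hWd 2 Nat.prime_two (by omega)
      exact (Nat.dvd_add_right (dvd_refl 2)).2 (h5.mul_right t)
    · exact Nat.add_mul_mod_self_left 2 W t
  have hEc : (X : ℝ) / W - 2 ≤ E.card := by
    rw [hE, card_image_of_injective _ (fun a b h => by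
      have h' : 2 + W * a = 2 + W * b := h
      exact Nat.eq_of_mul_eq_mul_left hW0 (by omega)), Nat.card_Ioc]
    have h3 : ((X / W : ℕ) : ℝ) ≤ (X : ℝ) / W := Nat.cast_div_le
    have h4 : ((2 * X - 2 : ℕ) : ℝ) / W < (((2 * X - 2) / W : ℕ) : ℝ) + 1 := by
      rw [div_lt_iff₀ hWr]
      have := Nat.lt_mul_div_succ (2 * X - 2) hW0
      have h5 : ((2 * X - 2 : ℕ) : ℝ) < ((W * ((2 * X - 2) / W + 1) : ℕ) : ℝ) := by exact_mod_cast this
      push_cast at h5 ⊢
      linarith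
    have h5 : ((2 * X - 2 : ℕ) : ℝ) = 2 * X - 2 := by
      rw [Nat.cast_sub (by omega)]
      push_cast
      ring
    rw [h5] at h4
    have h6 : (((2 * X - 2) / W : ℕ) : ℝ) - ((X / W : ℕ) : ℝ) ≤ (((2 * X - 2) / W - X / W : ℕ) : ℝ) := by
      have : (((2 * X - 2) / W : ℕ) : ℝ) ≤ (((2 * X - 2) / W - X / W : ℕ) : ℝ) + ((X / W : ℕ) : ℝ) := by
        exact_mod_cast (by omega : (2 * X - 2) / W ≤ ((2 * X - 2) / W - X / W) + X / W)
      linarith
    have h7 : (2 * (X : ℝ) - 2) / W = 2 * (X / W) - 2 / W := by ring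
    have h8 : 2 / (W : ℝ) ≤ 1 := by
      rw [div_le_one hWr]
      have h9 : 2 ≤ W := Nat.le_of_dvd hW0 (hWd 2 Nat.prime_two (by omega))
      exact_mod_cast h9
    rw [h7] at h4
    linarith
  obtain ⟨Bd, hBd⟩ : ∃ Bd, Bd = (Ioc 0 (2 * X)).filter (fun n => 2 ∣ n ∧ n % W = 2 % W ∧ ¬ G n) := ⟨_, rfl⟩
  have hBc : (Bd.card : ℝ) ≤ X / W / 32 := by
    have h3 := hG (2 * X) e0 W hW0 (by
      have h4 : Real.exp (L / 2) = (X : ℝ) ^ (1 / 2 : ℝ) := by
        rw [Real.rpow_def_of_pos (by linarith), ← hL]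
        congr 1
        ring
      rw [h4] at hWX
      refine hWX.trans ?_
      apply Real.rpow_le_rpow (by linarith) _ (by norm_num)
      push_cast
      linarith)
    rw [hBd]
    refine h3.trans ?_
    have h4 : L ≤ Real.log ((2 * X : ℕ) : ℝ) := by
      rw [hL]
      apply Real.log_le_log (by linarith)
      push_cast
      linarith
    have h5 : ((2 * X : ℕ) : ℝ) = 2 * X := by push_cast; ring
    rw [h5] at h4 ⊢
    have h6 : 64 ≤ Real.log (2 * (X : ℝ)) := by linarith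
    have h60 : 0 < Real.log (2 * (X : ℝ)) := by linarith
    rw [div_div, div_le_div_iff₀ (by positivity) (by positivity)]
    have h7 : 0 ≤ (X : ℝ) * W := by positivity
    nlinarith
  refine ⟨RR z X, E \ Bd, ?_, ?_, ?_, ?_⟩
  · intro p hp
    rw [mem_RR] at hp
    exact ⟨hp.2.1, hp.1.2⟩
  · refine (h2 X e1 z (by omega) hzX).trans ?_
    rw [← hL]
    rw [div_le_iff₀ hρ] at hlz
    calc K * (X / (L * Real.log z)) = K / Real.log z * (X / L) := by
          field_simp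
      _ ≤ ρ * (X / L) := by
          apply mul_le_mul_of_nonneg_right _ (by positivity)
          rw [div_le_iff₀ hlz0]
          linarith
  · intro n hn
    rw [mem_sdiff, hBd, mem_filter, mem_Ioc] at hn
    obtain ⟨a1, a2, a3, a4, a5, a6⟩ := hEm n hn.1
    have hGn : G n := by
      by_contra hcon
      exact hn.2 ⟨by omega, a4, a5, hcon⟩
    refine ⟨a1, a2, a4, hGn, ?_⟩
    intro p q hp hq hpq hpqn
    left
    rw [mem_RR]
    refine ⟨⟨hp.pos, by omega⟩, hp, ?_⟩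
    intro l hl hl3 hlz hd
    have hzq : z < q := by
      have h3 : 4 * z ≤ X := by
        have h4 : L ≤ X := by
          rw [hL]
          exact (Real.log_le_sub_one_of_pos (by linarith)).trans (by linarith)
        have h5 : 4 * (z : ℝ) ≤ X := by linarith
        exact_mod_cast h5
      omega
    have h3 : l ∣ n - 2 := (hWd l hl hlz).trans a3
    have h4 : l ∣ (n - 2) - (p - 2) := Nat.dvd_sub h3 hd
    have h5 : (n - 2) - (p - 2) = q := by
      have := hp.two_le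
      omega
    rw [h5] at h4
    exact not_dvd_of_lt hq hl (by omega) h4
  · have h3 : E.card ≤ (E \ Bd).card + Bd.card := card_le_card_sdiff_add_card
    have h4 : (E.card : ℝ) ≤ (E \ Bd).card + Bd.card := by exact_mod_cast h3
    have h5 : 32 ≤ (X : ℝ) / W := by
      rw [le_div_iff₀ hWr]
      linarith
    have h6 : (X : ℝ) / W / 2 ≤ (E \ Bd).card := by linarith
    refine le_trans ?_ h6
    -- `exp (exp ((2 K + 4) / ρ)) ≥ 2 W`
    have h7 : Real.exp ((2 * K + 4) / ρ) = Real.exp v * Real.exp (2 / ρ) := by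
      rw [← Real.exp_add, hv]
      congr 1
      ring
    have h8 : 3 ≤ Real.exp (2 / ρ) := by
      have h9 : 2 ≤ 2 / ρ := by
        rw [le_div_iff₀ hρ]
        linarith
      have := Real.add_one_le_exp (2 / ρ)
      linarith
    have h9 : 2 * (z : ℝ) + 1 ≤ Real.exp ((2 * K + 4) / ρ) := by
      rw [h7]
      nlinarith
    have h10 : Real.exp (- Real.exp ((2 * K + 4) / ρ)) ≤ 1 / (2 * W) := by
      rw [le_div_iff₀ (by positivity)]
      have h11 : (2 : ℝ) ≤ Real.exp 1 := by linarith [Real.exp_one_gt_d9]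
      calc Real.exp (- Real.exp ((2 * K + 4) / ρ)) * (2 * W) ≤
          Real.exp (-(2 * z + 1)) * (Real.exp 1 * Real.exp (2 * z)) := by
            apply mul_le_mul
            · apply Real.exp_le_exp.2
              linarith
            · exact mul_le_mul h11 hW4 hWr.le (Real.exp_pos _).le
            · positivity
            · positivity
        _ = 1 := by
            rw [← Real.exp_add, ← Real.exp_add]
            rw [show -(2 * (z : ℝ) + 1) + (1 + 2 * z) = 0 by ring, Real.exp_zero]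
    calc X * Real.exp (- Real.exp ((2 * K + 4) / ρ)) ≤ X * (1 / (2 * W)) :=
          mul_le_mul_of_nonneg_left h10 (by linarith)
      _ = X / W / 2 := by field_simp

end Pool.Agent.K4H8.DP
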