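import Pool.Agent.K4H8.DP.Mom0

/-!
# Sums of `m / φ(m)` over arbitrary sets
-/

set_option autoImplicit false

namespace Pool.Agent.K4H8.DP

open Finset

/-- the sum of `m / φ(m)` over an arbitrary set of at most `M` numbers up to `X` -/
lemma avg_of (a : ℝ) (ha : 0 < a) (hW : ∀ K : ℕ, 2 ≤ K → W1 K ≤ a * Real.log K) (X M : ℕ) (hM : 1 ≤ M)
    (hMX : M ≤ X) (D : Finset ℕ) (hD : D ⊆ Icc 1 X) (hDM : D.card ≤ M) :
    ∑ m ∈ D, hh m ≤ 2 * Real.exp 1 * a * (M * (1 + Real.log (1 + Real.log ((X : ℝ) / M)))) := by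
  obtain ⟨L, hL⟩ : ∃ L, L = Real.log ((X : ℝ) / M) := ⟨_, rfl⟩
  rw [← hL]
  have hM0 : (0 : ℝ) < M := by exact_mod_cast hM
  have hXM : (M : ℝ) ≤ X := by exact_mod_cast hMX
  have hX0 : (0 : ℝ) < X := by linarith
  have hL0 : 0 ≤ L := by
    rw [hL]
    apply Real.log_nonneg
    rw [le_div_iff₀ hM0]
    linarith
  have hXL : (X : ℝ) = M * Real.exp L := by
    rw [hL, Real.exp_log (by positivity)]
    field_simp
  obtain ⟨k, hk⟩ : ∃ k : ℕ, k = ⌈L⌉₊ + 2 := ⟨_, rfl⟩
  have hkL : L + 2 ≤ k := by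
    rw [hk]
    push_cast
    linarith [Nat.le_ceil L]
  have hkL2 : (k : ℝ) + 1 ≤ L + 4 := by
    rw [hk]
    push_cast
    linarith [Nat.ceil_lt_add_one hL0]
  have h0 : ∀ m, 0 ≤ hh m := fun m => by linarith [one_le_hh m]
  have h1 : (∑ m ∈ D, hh m) ^ k ≤ (D.card : ℝ) ^ (k - 1) * ∑ m ∈ D, hh m ^ k := by
    have := pow_sum_le_card_mul_sum_pow (s := D) (f := hh) (fun m _ => h0 m) (k - 1)
    rw [show k - 1 + 1 = k by omega] at this
    exact this
  have h2 : ∑ m ∈ D, hh m ^ k ≤ X * (W1 (k + 1) ^ k * Real.exp 2) := by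
    refine le_trans ?_ (moment k X (by omega))
    exact sum_le_sum_of_subset_of_nonneg hD fun m _ _ => pow_nonneg (h0 m) k
  have hW1 : 0 ≤ W1 (k + 1) := by linarith [W1_one_le (k + 1)]
  have h3 : (∑ m ∈ D, hh m) ^ k ≤ (M * Real.exp 1 * W1 (k + 1)) ^ k := by
    calc (∑ m ∈ D, hh m) ^ k ≤ (D.card : ℝ) ^ (k - 1) * ∑ m ∈ D, hh m ^ k := h1
      _ ≤ (M : ℝ) ^ (k - 1) * (X * (W1 (k + 1) ^ k * Real.exp 2)) := by
          apply mul_le_mul _ h2 (sum_nonneg fun m _ => pow_nonneg (h0 m) k) (by positivity)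
          exact pow_le_pow_left₀ (Nat.cast_nonneg _) (by exact_mod_cast hDM) _
      _ = (M : ℝ) ^ (k - 1 + 1) * Real.exp (L + 2) * W1 (k + 1) ^ k := by
          rw [hXL, Real.exp_add, pow_succ]
          ring
      _ ≤ (M : ℝ) ^ k * Real.exp 1 ^ k * W1 (k + 1) ^ k := by
          rw [show k - 1 + 1 = k by omega, ← Real.exp_nat_mul, mul_one]
          gcongr
      _ = _ := by rw [mul_pow, mul_pow]
  have h4 : ∑ m ∈ D, hh m ≤ M * Real.exp 1 * W1 (k + 1) :=
    le_of_pow_le_pow_left₀ (by omega) (by positivity) h3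
  refine h4.trans ?_
  have h5 : W1 (k + 1) ≤ a * (2 * (1 + Real.log (1 + L))) := by
    refine (hW (k + 1) (by omega)).trans ?_
    apply mul_le_mul_of_nonneg_left _ ha.le
    have h6 : Real.log ((k + 1 : ℕ) : ℝ) ≤ Real.log (4 * (1 + L)) := by
      apply Real.log_le_log (by positivity)
      push_cast
      linarith
    refine h6.trans ?_
    rw [Real.log_mul (by norm_num) (by linarith)]
    have h7 : Real.log 4 ≤ 2 := by
      have : Real.log 4 = 2 * Real.log 2 := by
        rw [show (4 : ℝ) = 2 ^ 2 by norm_num, Real.log_pow]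
        norm_num
      rw [this]
      linarith [Real.log_two_lt_d9]
    have h8 : 0 ≤ Real.log (1 + L) := Real.log_nonneg (by linarith)
    linarith
  calc M * Real.exp 1 * W1 (k + 1) ≤ M * Real.exp 1 * (a * (2 * (1 + Real.log (1 + L)))) := by
        gcongr
    _ = _ := by ring

/-- the inequality for the number of the exceptions -/
lemma solve_ineq {κ C C' ρ M lX X : ℝ} (hκ : 0 < κ) (hC : 0 < C) (hC' : 0 < C') (hρ : 0 < ρ) (hM : 0 < M)
    (hX : 0 < X) (hMX : M ≤ X) (hlX : 0 ≤ lX)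
    (h : κ * M ^ 2 ≤ ρ * (C * (M * lX) + C' * (M ^ 2 * (1 + Real.log (1 + Real.log (X / M)))))) :
    M ≤ 2 * C / κ * (ρ * lX) + Real.exp 2 * (X * Real.exp (- Real.exp (κ / (4 * C') / ρ))) := by
  obtain ⟨L, hL⟩ : ∃ L, L = Real.log (X / M) := ⟨_, rfl⟩
  rw [← hL] at h
  have hL0 : 0 ≤ L := by
    rw [hL]
    apply Real.log_nonneg
    rw [le_div_iff₀ hM]
    linarith
  have hXL : M = X * Real.exp (-L) := by
    rw [hL, Real.exp_neg, Real.exp_log (by positivity)]
    field_simp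
  have h0 : 0 ≤ Real.log (1 + L) := Real.log_nonneg (by linarith)
  rcases le_or_gt (κ * M) (2 * C * (ρ * lX)) with h1 | h1
  · have h2 : M ≤ 2 * C / κ * (ρ * lX) := by
      rw [div_mul_eq_mul_div, le_div_iff₀ hκ]
      linarith
    have : 0 ≤ Real.exp 2 * (X * Real.exp (- Real.exp (κ / (4 * C') / ρ))) := by positivity
    linarith
  · -- the second case
    have h2 : κ * M ^ 2 ≤ 2 * (ρ * C' * (M ^ 2 * (1 + Real.log (1 + L)))) := by
      have e1 : 2 * C * (ρ * lX) * M ≤ κ * M * M := mul_le_mul_of_nonneg_right h1.le hM.le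
      have e2 : ρ * (C * (M * lX) + C' * (M ^ 2 * (1 + Real.log (1 + L)))) =
        (2 * C * (ρ * lX) * M) / 2 + ρ * C' * (M ^ 2 * (1 + Real.log (1 + L))) := by ring
      rw [e2] at h
      nlinarith
    have hM2 : 0 < M ^ 2 := by positivity
    have h3 : κ ≤ 2 * (ρ * C' * (1 + Real.log (1 + L))) := by
      have : κ * M ^ 2 ≤ 2 * (ρ * C' * (1 + Real.log (1 + L))) * M ^ 2 := by linarith
      exact le_of_mul_le_mul_right this hM2
    obtain ⟨t, ht⟩ : ∃ t, t = κ / (4 * C') / ρ := ⟨_, rfl⟩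
    rw [← ht]
    have h4 : 2 * t ≤ 1 + Real.log (1 + L) := by
      rw [ht, div_div, mul_div_assoc', div_le_iff₀ (by positivity)]
      linarith
    have h5 : Real.exp (2 * t - 1) ≤ 1 + L := by
      rw [← Real.le_log_iff_exp_le (by linarith)]
      linarith
    have h6 : Real.exp t - 1 ≤ Real.exp (2 * t - 1) := by
      have e1 : Real.exp (2 * t - 1) = Real.exp t ^ 2 * Real.exp (-1) := by
        rw [← Real.exp_nat_mul, ← Real.exp_add]
        congr 1
      rw [e1]
      have e2 : 1 / 4 ≤ Real.exp (-1) := by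
        rw [Real.exp_neg, ← one_div]
        apply one_div_le_one_div_of_le (Real.exp_pos 1)
        linarith [Real.exp_one_lt_d9]
      nlinarith [sq_nonneg (Real.exp t / 2 - 1), sq_nonneg (Real.exp t)]
    have h7 : Real.exp t - 2 ≤ L := by linarith
    have h8 : M ≤ Real.exp 2 * (X * Real.exp (- Real.exp t)) := by
      calc M = X * Real.exp (-L) := hXL
        _ ≤ X * Real.exp (2 + - Real.exp t) := by
            apply mul_le_mul_of_nonneg_left _ hX.le
            apply Real.exp_le_exp.2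
            linarith
        _ = _ := by rw [Real.exp_add]; ring
    have h10 : 0 ≤ 2 * C / κ * (ρ * lX) := by positivity
    linarith

/-- products -/
lemma hh_mul_le (q m : ℕ) (hq : 0 < q) (hm : 0 < m) : hh (q * m) ≤ hh q * hh m := by
  classical
  unfold hh
  rw [Nat.primeFactors_mul hq.ne' hm.ne', ← prod_union_inter]
  have h1 : ∀ S ⊆ q.primeFactors ∪ m.primeFactors, 1 ≤ ∏ p ∈ S, (1 - 1 / (p : ℝ))⁻¹ := by
    intro S hS
    calc (1 : ℝ) = ∏ _p ∈ S, (1 : ℝ) := by simp
      _ ≤ _ := prod_le_prod (fun _ _ => zero_le_one) (fun p hp => by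
          have h2 := hS hp
          rw [mem_union] at h2
          rcases h2 with h2 | h2
          · exact one_le_fac (Nat.prime_of_mem_primeFactors h2).two_le
          · exact one_le_fac (Nat.prime_of_mem_primeFactors h2).two_le)
  have h2 := h1 (q.primeFactors ∩ m.primeFactors) (inter_subset_union)
  have h3 := h1 (q.primeFactors ∪ m.primeFactors) (Subset.refl _)
  nlinarith

end Pool.Agent.K4H8.DP
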