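import Pool.Agent.K4H8.DP.Mom1
import Pool.Agent.Y843.AC.Stm

/-!
# Upper bounds for the numbers of primes `p` with `n - p` and `n' - p` prime
-/

set_option autoImplicit false

namespace Pool.Agent.K4H8.DP

open Finset
open Pool.Agent.Y843.HS (Pr VV)
open Pool.Agent.Y843.AC (OK Av APs S_UPA)

/-- the two bounds of Mertens -/
def Mert (a b : ℝ) : Prop := ∀ y : ℕ, 2 ≤ y → a * Real.log y ≤ W1 y ∧ W1 y ≤ b * Real.log y

/-- the sieve bound -/
def SB (C : ℝ) (X₀ : ℕ) : Prop := ∀ X : ℕ, X₀ ≤ X → ∀ Z : ℕ → Finset ℕ, OK 3 (1 / 4) X Z →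
  ∀ S ⊆ Ioc 0 X, (∀ n ∈ S, Av (1 / 4) X Z n) →
    (S.card : ℝ) ≤ C * X * VV Z 0 ⌊(X : ℝ) ^ (1 / 4 : ℝ)⌋₊

lemma sb (h : S_UPA) : ∃ C : ℝ, 0 < C ∧ ∃ X₀ : ℕ, SB C X₀ := by
  classical
  obtain ⟨C, hC, B, X₀, h0⟩ := h 3 1 (1 / 4) le_rfl (by norm_num)
  refine ⟨C, hC, max X₀ 1, fun X hX Z hZ S hS hA => ?_⟩
  obtain ⟨D, hD⟩ : ∃ D : ℕ, D = ⌈Real.log X ^ B⌉₊ + 1 := ⟨_, rfl⟩
  have hD1 : Real.log X ^ B ≤ D := by
    rw [hD]
    push_cast
    linarith [Nat.le_ceil (Real.log X ^ B)]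
  have hD0 : (0 : ℝ) < D := by
    rw [hD]
    push_cast
    positivity
  have h1 := h0 X 0 D ((le_max_left _ _).trans hX) hD1 Z hZ S (by rwa [zero_add]) hA
  have h2 : (APs 1 D S).card = S.card * D := by
    have : APs 1 D S = S ×ˢ Icc 1 D := by
      unfold APs
      apply filter_true_of_mem
      intro q hq j hj
      have : j = 0 := by omega
      subst this
      rw [zero_mul, add_zero]
      exact (mem_product.1 hq).1
    rw [this, card_product, Nat.card_Icc, Nat.add_sub_cancel]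
  rw [h2] at h1
  push_cast at h1
  rw [pow_one] at h1
  have h3 : (S.card : ℝ) * D ≤ (C * X * VV Z 0 ⌊(X : ℝ) ^ (1 / 4 : ℝ)⌋₊) * D := by
    calc (S.card : ℝ) * D ≤ C * X * D * VV Z 0 ⌊(X : ℝ) ^ (1 / 4 : ℝ)⌋₊ := h1
      _ = _ := by ring
  exact le_of_mul_le_mul_right h3 hD0

lemma Pr_eq (y : ℕ) : Pr 0 y = (Ioc 0 y).filter Nat.Prime := rfl

/-- the factor at the primes dividing `m` -/
noncomputable def uu (p m : ℕ) : ℝ := if p ∣ m then (1 - 1 / (p : ℝ))⁻¹ else 1

lemma one_le_uu {p : ℕ} (hp : p.Prime) (m : ℕ) : 1 ≤ uu p m := by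
  unfold uu
  split_ifs
  · exact one_le_fac hp.two_le
  · exact le_rfl

lemma prod_uu_le (y m : ℕ) (hm : 0 < m) : ∏ p ∈ (Ioc 0 y).filter Nat.Prime, uu p m ≤ hh m := by
  classical
  have h1 : ∏ p ∈ (Ioc 0 y).filter Nat.Prime, uu p m =
      ∏ p ∈ ((Ioc 0 y).filter Nat.Prime).filter (fun p => p ∣ m), (1 - 1 / (p : ℝ))⁻¹ := by
    rw [prod_filter (fun p => p ∣ m)]
    rfl
  rw [h1]
  unfold hh
  apply prod_mono_one
  · intro p hp
    rw [mem_filter, mem_filter] at hp
    exact Nat.mem_primeFactors.2 ⟨hp.1.2, hp.2, hm.ne'⟩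
  · intro p hp
    exact one_le_fac (Nat.prime_of_mem_primeFactors hp).two_le

lemma vv_bd {p : ℕ} (hp : p.Prime) : 1 / 2 ≤ 1 - 1 / (p : ℝ) ∧ 1 - 1 / (p : ℝ) < 1 := by
  have h2 : (2 : ℝ) ≤ p := by exact_mod_cast hp.two_le
  constructor
  · have : 1 / (p : ℝ) ≤ 1 / 2 := one_div_le_one_div_of_le (by norm_num) h2
    linarith
  · have : 0 < 1 / (p : ℝ) := by positivity
    linarith

/-- the sets of classes for the triples -/
def Z3 (n n' p : ℕ) : Finset ℕ := if p ≤ 3 then {0} else {0, n % p, n' % p}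

lemma Z3_ok (n n' X : ℕ) : OK 3 (1 / 4) X (Z3 n n') := by
  intro p hp _
  unfold Z3
  split_ifs with h
  · refine ⟨by simp, by simpa using hp.one_lt, ?_⟩
    intro c hc
    rw [mem_singleton] at hc
    rw [hc]
    exact hp.pos
  · have h3 : ({0, n % p, n' % p} : Finset ℕ).card ≤ 3 := card_le_three
    refine ⟨h3, by omega, ?_⟩
    intro c hc
    rw [mem_insert, mem_insert, mem_singleton] at hc
    rcases hc with rfl | rfl | rfl
    · exact hp.pos
    · exact Nat.mod_lt _ hp.pos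
    · exact Nat.mod_lt _ hp.pos

lemma card_two {a b : ℕ} {Z : Finset ℕ} (hab : a ≠ b) (ha : a ∈ Z) (hb : b ∈ Z) : 2 ≤ Z.card := by
  have h : ({a, b} : Finset ℕ) ⊆ Z := by
    intro x hx
    rw [mem_insert, mem_singleton] at hx
    rcases hx with rfl | rfl
    · exact ha
    · exact hb
  have := card_le_card h
  rwa [card_pair hab] at this

lemma one_sub_le {Z : Finset ℕ} {p j : ℕ} (hp : p.Prime) (h : j ≤ Z.card) :
    1 - (Z.card : ℝ) / p ≤ 1 - (j : ℝ) / p := by
  have hp0 : (0 : ℝ) < p := by exact_mod_cast hp.pos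
  have h1 : (j : ℝ) ≤ Z.card := by exact_mod_cast h
  have := div_le_div_of_nonneg_right h1 hp0.le
  linarith

/-- the local bound for triples -/
lemma loc3 {n n' p : ℕ} (hnn : n ≤ n') (hp : p.Prime) : 1 - ((Z3 n n' p).card : ℝ) / p ≤
    (1 - 1 / (p : ℝ)) ^ 3 * (if p ≤ 3 then 4 else 1) * (uu p n * uu p n' * uu p (n' - n)) := by
  obtain ⟨v, hv⟩ : ∃ v, v = 1 - 1 / (p : ℝ) := ⟨_, rfl⟩
  have hvb := vv_bd hp
  rw [← hv] at hvb
  have hp0 : (0 : ℝ) < p := by exact_mod_cast hp.pos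
  have hv0 : 0 < v := by linarith
  have u1 := one_le_uu hp n
  have u2 := one_le_uu hp n'
  have u3 := one_le_uu hp (n' - n)
  have hU1 : 1 ≤ uu p n * uu p n' * uu p (n' - n) := by
    have := one_le_mul_of_one_le_of_one_le (one_le_mul_of_one_le_of_one_le u1 u2) u3
    exact this
  by_cases h3 : p ≤ 3
  · have e1 : (Z3 n n' p).card = 1 := by
      unfold Z3
      rw [if_pos h3, card_singleton]
    rw [if_pos h3, e1, Nat.cast_one, ← hv]
    have : v ≤ v ^ 3 * 4 := by nlinarith [mul_nonneg hv0.le (show (0 : ℝ) ≤ v - 1 / 2 by linarith)]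
    have h4 : 0 ≤ v ^ 3 * 4 := by positivity
    nlinarith
  · rw [if_neg h3, mul_one]
    have hZ : Z3 n n' p = {0, n % p, n' % p} := by
      unfold Z3
      rw [if_neg h3]
    have m0 : 0 ∈ Z3 n n' p := by rw [hZ]; simp
    have m1 : n % p ∈ Z3 n n' p := by rw [hZ]; simp
    have m2 : n' % p ∈ Z3 n n' p := by rw [hZ]; simp
    have hinv : v ^ 3 * v⁻¹ = v ^ 2 := by
      rw [pow_succ v 2, mul_assoc, mul_inv_cancel₀ hv0.ne', mul_one]
    have two : 2 ≤ (Z3 n n' p).card → v⁻¹ ≤ uu p n * uu p n' * uu p (n' - n) →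
        1 - ((Z3 n n' p).card : ℝ) / p ≤ (1 - 1 / (p : ℝ)) ^ 3 * (uu p n * uu p n' * uu p (n' - n)) := by
      intro hc hu
      refine (one_sub_le hp hc).trans ?_
      have h5 : 1 - ((2 : ℕ) : ℝ) / p ≤ v ^ 2 := by
        rw [hv]
        have : (1 - 1 / (p : ℝ)) ^ 2 = 1 - 2 / p + (1 / (p : ℝ)) ^ 2 := by ring
        rw [this]
        have : 0 ≤ (1 / (p : ℝ)) ^ 2 := by positivity
        push_cast
        linarith
      refine h5.trans ?_
      rw [← hv, ← hinv]
      exact mul_le_mul_of_nonneg_left hu (by positivity)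
    have uv : ∀ m, p ∣ m → uu p m = v⁻¹ := by
      intro m hm
      unfold uu
      rw [if_pos hm, hv]
    have hvi : 1 ≤ v⁻¹ := by
      rw [one_le_inv₀ hv0]
      exact hvb.2.le
    by_cases ha : p ∣ n
    · by_cases hb : p ∣ n'
      · have hc : p ∣ n' - n := Nat.dvd_sub hb ha
        rw [uv _ ha, uv _ hb, uv _ hc, ← hv]
        have h5 : v ^ 3 * (v⁻¹ * v⁻¹ * v⁻¹) = 1 := by
          field_simp
        rw [h5]
        have : 0 ≤ ((Z3 n n' p).card : ℝ) / p := by positivity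
        linarith
      · apply two
        · apply card_two _ m0 m2
          intro h
          exact hb (Nat.dvd_of_mod_eq_zero h.symm)
        · rw [uv _ ha]
          have : 1 ≤ uu p n' * uu p (n' - n) := one_le_mul_of_one_le_of_one_le u2 u3
          rw [mul_assoc]
          nlinarith
    · by_cases hb : p ∣ n'
      · apply two
        · apply card_two _ m0 m1
          intro h
          exact ha (Nat.dvd_of_mod_eq_zero h.symm)
        · rw [uv _ hb]
          have : 1 ≤ uu p n * uu p (n' - n) := one_le_mul_of_one_le_of_one_le u1 u3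
          calc v⁻¹ = 1 * v⁻¹ := (one_mul _).symm
            _ ≤ (uu p n * uu p (n' - n)) * v⁻¹ := mul_le_mul_of_nonneg_right this (by positivity)
            _ = _ := by ring
      · by_cases hc : p ∣ n' - n
        · apply two
          · apply card_two _ m0 m1
            intro h
            exact ha (Nat.dvd_of_mod_eq_zero h.symm)
          · rw [uv _ hc]
            have : 1 ≤ uu p n * uu p n' := one_le_mul_of_one_le_of_one_le u1 u2
            calc v⁻¹ = 1 * v⁻¹ := (one_mul _).symm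
              _ ≤ (uu p n * uu p n') * v⁻¹ := mul_le_mul_of_nonneg_right this (by positivity)
        · have hcard : 3 ≤ (Z3 n n' p).card := by
            rw [hZ]
            rw [card_eq_three.2 ⟨0, n % p, n' % p, ?_, ?_, ?_, rfl⟩]
            · intro h
              exact ha (Nat.dvd_of_mod_eq_zero h.symm)
            · intro h
              exact hb (Nat.dvd_of_mod_eq_zero h.symm)
            · intro h
              apply hc
              exact (Nat.modEq_iff_dvd' hnn).1 h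
          refine (one_sub_le hp hcard).trans ?_
          rw [← hv]
          have h5 : 1 - ((3 : ℕ) : ℝ) / p ≤ v ^ 3 := by
            rw [hv]
            have h6 : (1 - 1 / (p : ℝ)) ^ 3 = 1 - 3 / p + (1 / (p : ℝ)) ^ 2 * (3 - 1 / p) := by ring
            rw [h6]
            have h7 : 1 / (p : ℝ) ≤ 1 := by
              rw [div_le_one hp0]
              exact_mod_cast hp.one_le
            have : 0 ≤ (1 / (p : ℝ)) ^ 2 * (3 - 1 / p) := by
              apply mul_nonneg (by positivity)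
              linarith
            push_cast
            linarith
          refine h5.trans ?_
          have : 0 ≤ v ^ 3 := by positivity
          nlinarith

lemma prod_four (y : ℕ) : ∏ p ∈ (Ioc 0 y).filter Nat.Prime, (if p ≤ 3 then (4 : ℝ) else 1) ≤ 16 := by
  classical
  rw [← prod_filter, prod_const]
  have h : (((Ioc 0 y).filter Nat.Prime).filter (fun p => p ≤ 3)) ⊆ {2, 3} := by
    intro p hp
    rw [mem_filter, mem_filter] at hp
    have := hp.1.2.two_le
    rw [mem_insert, mem_singleton]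
    omega
  have h1 := card_le_card h
  have h2 : ({2, 3} : Finset ℕ).card = 2 := by decide
  rw [h2] at h1
  calc (4 : ℝ) ^ _ ≤ 4 ^ 2 := pow_le_pow_right₀ (by norm_num) h1
    _ = 16 := by norm_num

lemma W1_prod (y : ℕ) : ∏ p ∈ (Ioc 0 y).filter Nat.Prime, (1 - 1 / (p : ℝ)) = (W1 y)⁻¹ := by
  unfold W1
  rw [prod_inv_distrib, inv_inv]

lemma W1_pos (y : ℕ) : 0 < W1 y := by linarith [W1_one_le y]

lemma VV_nonneg_of {Z : ℕ → Finset ℕ} (y : ℕ) (hZ : ∀ p, p.Prime → p ≤ y → (Z p).card < p) :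
    ∀ p ∈ (Ioc 0 y).filter Nat.Prime, 0 ≤ 1 - ((Z p).card : ℝ) / p := by
  intro p hp
  rw [mem_filter, mem_Ioc] at hp
  have h1 := hZ p hp.2 hp.1.2
  have hp0 : (0 : ℝ) < p := by exact_mod_cast hp.2.pos
  have h2 : ((Z p).card : ℝ) / p ≤ 1 := by
    rw [div_le_one hp0]
    exact_mod_cast h1.le
  linarith

/-- the sieve product for triples -/
lemma VV3 {n n' : ℕ} (hn : 0 < n) (hnn : n < n') (y : ℕ) :
    VV (Z3 n n') 0 y ≤ 16 * (W1 y)⁻¹ ^ 3 * (hh n * hh n' * hh (n' - n)) := by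
  have hZ : ∀ p, p.Prime → p ≤ y → (Z3 n n' p).card < p := by
    intro p hp _
    have := Z3_ok n n' (p ^ 4) p hp (by
      push_cast
      rw [← Real.rpow_natCast, ← Real.rpow_mul (by positivity)]
      norm_num)
    exact this.2.1
  have h0 := VV_nonneg_of y hZ
  unfold VV
  rw [Pr_eq]
  refine (prod_le_prod h0 (fun p hp => loc3 hnn.le (mem_filter.1 hp).2)).trans ?_
  rw [prod_mul_distrib, prod_mul_distrib, prod_mul_distrib, prod_mul_distrib, prod_pow, W1_prod]
  have h4 := prod_four y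
  have hW := W1_pos y
  have p1 := prod_uu_le y n hn
  have p2 := prod_uu_le y n' (by omega)
  have p3 := prod_uu_le y (n' - n) (by omega)
  have q : ∀ m, 0 ≤ ∏ p ∈ (Ioc 0 y).filter Nat.Prime, uu p m := fun m =>
    prod_nonneg fun p hp => by linarith [one_le_uu (mem_filter.1 hp).2 m]
  have hh0 : ∀ m, 0 ≤ hh m := fun m => by linarith [one_le_hh m]
  have hU : (∏ p ∈ (Ioc 0 y).filter Nat.Prime, uu p n) * (∏ p ∈ (Ioc 0 y).filter Nat.Prime, uu p n') *
      (∏ p ∈ (Ioc 0 y).filter Nat.Prime, uu p (n' - n)) ≤ hh n * hh n' * hh (n' - n) := by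
    apply mul_le_mul (mul_le_mul p1 p2 (q _) (hh0 _)) p3 (q _)
    exact mul_nonneg (hh0 _) (hh0 _)
  calc (W1 y)⁻¹ ^ 3 * (∏ p ∈ (Ioc 0 y).filter Nat.Prime, (if p ≤ 3 then (4 : ℝ) else 1)) * _
      ≤ (W1 y)⁻¹ ^ 3 * 16 * (hh n * hh n' * hh (n' - n)) := by
        apply mul_le_mul _ hU _ (by positivity)
        · exact mul_le_mul_of_nonneg_left h4 (by positivity)
        · exact mul_nonneg (mul_nonneg (q _) (q _)) (q _)
    _ = _ := by ring

end Pool.Agent.K4H8.DP
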