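import Pool.Agent.K4H8.DP.Siv

/-!
# Upper bounds for the numbers of primes: pairs, and primes `p` with `p - 2` free of small primes
-/

set_option autoImplicit false

namespace Pool.Agent.K4H8.DP

open Finset
open Pool.Agent.Y843.HS (Pr VV)
open Pool.Agent.Y843.AC (OK Av APs S_UPA)

/-- the sets of classes for the pairs -/
def Z2 (n p : ℕ) : Finset ℕ := if p ≤ 3 then {0} else {0, n % p}

lemma Z2_ok (n X : ℕ) : OK 3 (1 / 4) X (Z2 n) := by
  intro p hp _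
  unfold Z2
  split_ifs with h
  · refine ⟨by simp, by simpa using hp.one_lt, ?_⟩
    intro c hc
    rw [mem_singleton] at hc
    rw [hc]
    exact hp.pos
  · have h3 : ({0, n % p} : Finset ℕ).card ≤ 2 := card_le_two
    refine ⟨by omega, by omega, ?_⟩
    intro c hc
    rw [mem_insert, mem_singleton] at hc
    rcases hc with rfl | rfl
    · exact hp.pos
    · exact Nat.mod_lt _ hp.pos

/-- the local bound for pairs -/
lemma loc2 {n p : ℕ} (hp : p.Prime) : 1 - ((Z2 n p).card : ℝ) / p ≤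
    (1 - 1 / (p : ℝ)) ^ 2 * (if p ≤ 3 then 4 else 1) * uu p n := by
  obtain ⟨v, hv⟩ : ∃ v, v = 1 - 1 / (p : ℝ) := ⟨_, rfl⟩
  have hvb := vv_bd hp
  rw [← hv] at hvb
  have hp0 : (0 : ℝ) < p := by exact_mod_cast hp.pos
  have hv0 : 0 < v := by linarith
  have u1 := one_le_uu hp n
  by_cases h3 : p ≤ 3
  · have e1 : (Z2 n p).card = 1 := by
      unfold Z2
      rw [if_pos h3, card_singleton]
    rw [if_pos h3, e1, Nat.cast_one, ← hv]
    have : v ≤ v ^ 2 * 4 := by nlinarith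
    have h4 : 0 ≤ v ^ 2 * 4 := by positivity
    nlinarith
  · rw [if_neg h3, mul_one]
    have hZ : Z2 n p = {0, n % p} := by
      unfold Z2
      rw [if_neg h3]
    have m0 : 0 ∈ Z2 n p := by rw [hZ]; simp
    have m1 : n % p ∈ Z2 n p := by rw [hZ]; simp
    by_cases ha : p ∣ n
    · have hc : 1 ≤ (Z2 n p).card := card_pos.2 ⟨0, m0⟩
      refine (one_sub_le hp hc).trans ?_
      have e : uu p n = v⁻¹ := by
        unfold uu
        rw [if_pos ha, hv]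
      rw [e, Nat.cast_one, ← hv, pow_two, mul_assoc, mul_inv_cancel₀ hv0.ne', mul_one]
    · have hc : 2 ≤ (Z2 n p).card := by
        apply card_two _ m0 m1
        intro h
        exact ha (Nat.dvd_of_mod_eq_zero h.symm)
      refine (one_sub_le hp hc).trans ?_
      have h5 : 1 - ((2 : ℕ) : ℝ) / p ≤ v ^ 2 := by
        rw [hv]
        have : (1 - 1 / (p : ℝ)) ^ 2 = 1 - 2 / p + (1 / (p : ℝ)) ^ 2 := by ring
        rw [this]
        have : 0 ≤ (1 / (p : ℝ)) ^ 2 := by positivity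
        push_cast
        linarith
      refine h5.trans ?_
      rw [← hv]
      have : 0 ≤ v ^ 2 := by positivity
      nlinarith

/-- the sieve product for pairs -/
lemma VV2 {n : ℕ} (hn : 0 < n) (y : ℕ) : VV (Z2 n) 0 y ≤ 16 * (W1 y)⁻¹ ^ 2 * hh n := by
  have hZ : ∀ p, p.Prime → p ≤ y → (Z2 n p).card < p := by
    intro p hp _
    have := Z2_ok n (p ^ 4) p hp (by
      push_cast
      rw [← Real.rpow_natCast, ← Real.rpow_mul (by positivity)]
      norm_num)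
    exact this.2.1
  have h0 := VV_nonneg_of y hZ
  unfold VV
  rw [Pr_eq]
  refine (prod_le_prod h0 (fun p hp => loc2 (mem_filter.1 hp).2)).trans ?_
  rw [prod_mul_distrib, prod_mul_distrib, prod_pow, W1_prod]
  have h4 := prod_four y
  have hW := W1_pos y
  have p1 := prod_uu_le y n hn
  have q : ∀ m, 0 ≤ ∏ p ∈ (Ioc 0 y).filter Nat.Prime, uu p m := fun m =>
    prod_nonneg fun p hp => by linarith [one_le_uu (mem_filter.1 hp).2 m]
  calc (W1 y)⁻¹ ^ 2 * (∏ p ∈ (Ioc 0 y).filter Nat.Prime, (if p ≤ 3 then (4 : ℝ) else 1)) * _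
      ≤ (W1 y)⁻¹ ^ 2 * 16 * hh n := by
        apply mul_le_mul _ p1 (q _) (by positivity)
        exact mul_le_mul_of_nonneg_left h4 (by positivity)
    _ = _ := by ring

/-- the sets of classes for the primes `p` with `p - 2` free of the primes of `(3, z]` -/
def Zs (z p : ℕ) : Finset ℕ := if 3 < p ∧ p ≤ z then {0, 2 % p} else {0}

lemma Zs_ok (z X : ℕ) : OK 3 (1 / 4) X (Zs z) := by
  intro p hp _
  unfold Zs
  split_ifs with h
  · have h3 : ({0, 2 % p} : Finset ℕ).card ≤ 2 := card_le_two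
    refine ⟨by omega, by omega, ?_⟩
    intro c hc
    rw [mem_insert, mem_singleton] at hc
    rcases hc with rfl | rfl
    · exact hp.pos
    · exact Nat.mod_lt _ hp.pos
  · refine ⟨by simp, by simpa using hp.one_lt, ?_⟩
    intro c hc
    rw [mem_singleton] at hc
    rw [hc]
    exact hp.pos

lemma locs {z p : ℕ} (hp : p.Prime) : 1 - ((Zs z p).card : ℝ) / p ≤
    (1 - 1 / (p : ℝ)) * ((if p ≤ z then (1 - 1 / (p : ℝ)) else 1) * (if p ≤ 3 then 4 else 1)) := by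
  obtain ⟨v, hv⟩ : ∃ v, v = 1 - 1 / (p : ℝ) := ⟨_, rfl⟩
  have hvb := vv_bd hp
  rw [← hv] at hvb
  have hp0 : (0 : ℝ) < p := by exact_mod_cast hp.pos
  have hv0 : 0 < v := by linarith
  rw [← hv]
  by_cases h : 3 < p ∧ p ≤ z
  · have hZ : Zs z p = {0, 2 % p} := by
      unfold Zs
      rw [if_pos h]
    rw [if_pos h.2, if_neg (by omega), mul_one]
    have hc : 2 ≤ (Zs z p).card := by
      rw [hZ]
      apply card_two (a := 0) (b := 2 % p) _ (by simp) (by simp)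
      rw [Nat.mod_eq_of_lt (by omega)]
      norm_num
    refine (one_sub_le hp hc).trans ?_
    rw [hv]
    have : (1 - 1 / (p : ℝ)) * (1 - 1 / (p : ℝ)) = 1 - 2 / p + (1 / (p : ℝ)) ^ 2 := by ring
    rw [this]
    have : 0 ≤ (1 / (p : ℝ)) ^ 2 := by positivity
    push_cast
    linarith
  · have hZ : Zs z p = {0} := by
      unfold Zs
      rw [if_neg h]
    rw [hZ, card_singleton, Nat.cast_one, ← hv]
    have h1 : 1 ≤ (if p ≤ z then v else 1) * (if p ≤ 3 then 4 else 1) := by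
      by_cases h3 : p ≤ 3
      · rw [if_pos h3]
        split_ifs
        · linarith
        · norm_num
      · rw [if_neg h3, if_neg (by omega)]
        norm_num
    nlinarith

/-- the sieve product for the primes `p` with `p - 2` free of the primes of `(3, z]` -/
lemma VVs {z y : ℕ} (hzy : z ≤ y) : VV (Zs z) 0 y ≤ 16 * (W1 y)⁻¹ * (W1 z)⁻¹ := by
  classical
  have hZ : ∀ p, p.Prime → p ≤ y → (Zs z p).card < p := by
    intro p hp _
    have := Zs_ok z (p ^ 4) p hp (by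
      push_cast
      rw [← Real.rpow_natCast, ← Real.rpow_mul (by positivity)]
      norm_num)
    exact this.2.1
  have h0 := VV_nonneg_of y hZ
  unfold VV
  rw [Pr_eq]
  refine (prod_le_prod h0 (fun p hp => locs (mem_filter.1 hp).2)).trans ?_
  rw [prod_mul_distrib, prod_mul_distrib, W1_prod]
  have h4 := prod_four y
  have hW := W1_pos y
  have hW' := W1_pos z
  have h1 : ∏ p ∈ (Ioc 0 y).filter Nat.Prime, (if p ≤ z then (1 - 1 / (p : ℝ)) else 1) = (W1 z)⁻¹ := by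
    rw [← prod_filter, ← W1_prod]
    apply prod_congr _ (fun _ _ => rfl)
    ext p
    rw [mem_filter, mem_filter, mem_filter, mem_Ioc, mem_Ioc]
    constructor
    · rintro ⟨⟨⟨a, b⟩, c⟩, d⟩
      exact ⟨⟨a, d⟩, c⟩
    · rintro ⟨⟨a, b⟩, c⟩
      exact ⟨⟨⟨a, by omega⟩, c⟩, b⟩
  rw [h1]
  calc (W1 y)⁻¹ * ((W1 z)⁻¹ * ∏ p ∈ (Ioc 0 y).filter Nat.Prime, (if p ≤ 3 then (4 : ℝ) else 1))
      ≤ (W1 y)⁻¹ * ((W1 z)⁻¹ * 16) := by gcongr
    _ = _ := by ring

/-- the fourth root -/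
lemma root_facts : ∃ X₀ : ℕ, 2 ≤ X₀ ∧ ∀ X : ℕ, X₀ ≤ X → 2 ≤ ⌊((2 * X : ℕ) : ℝ) ^ (1 / 4 : ℝ)⌋₊ ∧
    Real.log X / 8 ≤ Real.log (⌊((2 * X : ℕ) : ℝ) ^ (1 / 4 : ℝ)⌋₊ : ℕ) ∧
    1 ≤ Real.log X ∧
    3 * ((⌊((2 * X : ℕ) : ℝ) ^ (1 / 4 : ℝ)⌋₊ : ℕ) + 1 : ℝ) ≤ X / Real.log X ^ 3 := by
  have e1 := (tendsto_rpow_atTop (show (0 : ℝ) < 1 / 8 by norm_num)).eventually
    (Filter.eventually_ge_atTop (2 : ℝ))
  have e2 := (isLittleO_log_rpow_rpow_atTop (3 : ℝ) (show (0 : ℝ) < 1 / 4 by norm_num)).bound one_pos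
  have e3 := Real.tendsto_log_atTop.eventually_ge_atTop 1
  have e4 := (tendsto_rpow_atTop (show (0 : ℝ) < 1 / 4 by norm_num)).eventually
    (Filter.eventually_ge_atTop (9 : ℝ))
  obtain ⟨x₀, h0⟩ := Filter.eventually_atTop.1 (((e1.and e2).and (e3.and e4)).and
    (Filter.eventually_ge_atTop (1 : ℝ)))
  refine ⟨max ⌈x₀⌉₊ 2, le_max_right _ _, fun X hX => ?_⟩
  have hX2 : 2 ≤ X := (le_max_right _ _).trans hX
  obtain ⟨⟨⟨h1, h2⟩, ⟨h3, h4⟩⟩, h5⟩ := h0 X ((Nat.le_ceil _).trans (by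
    exact_mod_cast (le_max_left _ _).trans hX))
  have hX0 : (0 : ℝ) < X := by linarith
  have hl0 : 0 < Real.log X := by linarith
  obtain ⟨r, hr⟩ : ∃ r, r = ((2 * X : ℕ) : ℝ) ^ (1 / 4 : ℝ) := ⟨_, rfl⟩
  have hr1 : (X : ℝ) ^ (1 / 4 : ℝ) ≤ r := by
    rw [hr]
    apply Real.rpow_le_rpow hX0.le _ (by norm_num)
    push_cast
    linarith
  have hr2 : r ≤ 2 * (X : ℝ) ^ (1 / 4 : ℝ) := by
    rw [hr]
    push_cast
    rw [Real.mul_rpow (by norm_num) hX0.le]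
    apply mul_le_mul_of_nonneg_right _ (by positivity)
    calc (2 : ℝ) ^ (1 / 4 : ℝ) ≤ 2 ^ (1 : ℝ) :=
          Real.rpow_le_rpow_of_exponent_le (by norm_num) (by norm_num)
      _ = 2 := Real.rpow_one 2
  rw [← hr]
  have h14 : (X : ℝ) ^ (1 / 4 : ℝ) = (X : ℝ) ^ (1 / 8 : ℝ) * (X : ℝ) ^ (1 / 8 : ℝ) := by
    rw [← Real.rpow_add hX0]
    norm_num
  have hfl := Nat.lt_floor_add_one r
  have hfl2 : (⌊r⌋₊ : ℝ) ≤ r := Nat.floor_le (by rw [hr]; positivity)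
  have hlow : (X : ℝ) ^ (1 / 8 : ℝ) ≤ (⌊r⌋₊ : ℝ) := by
    rw [h14] at hr1
    nlinarith
  refine ⟨?_, ?_, h3, ?_⟩
  · have : (2 : ℝ) ≤ (⌊r⌋₊ : ℝ) := h1.trans hlow
    exact_mod_cast this
  · have h6 := Real.log_le_log (by positivity) hlow
    rw [Real.log_rpow hX0] at h6
    linarith
  · rw [one_mul, Real.norm_of_nonneg (Real.rpow_nonneg hl0.le _),
      Real.norm_of_nonneg (Real.rpow_nonneg hX0.le _)] at h2
    have h7 : Real.log X ^ 3 ≤ (X : ℝ) ^ (1 / 4 : ℝ) := by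
      have : Real.log X ^ (3 : ℝ) = Real.log X ^ 3 := by
        rw [← Real.rpow_natCast]
        norm_num
      rwa [this] at h2
    rw [le_div_iff₀ (by positivity)]
    have hq0 : 0 < (X : ℝ) ^ (1 / 4 : ℝ) := by positivity
    have h8 : 3 * ((⌊r⌋₊ : ℝ) + 1) ≤ 9 * (X : ℝ) ^ (1 / 4 : ℝ) := by
      have : 1 ≤ (X : ℝ) ^ (1 / 4 : ℝ) := by linarith
      linarith
    have h9 : (X : ℝ) ^ (1 / 4 : ℝ) * (X : ℝ) ^ (1 / 4 : ℝ) * ((X : ℝ) ^ (1 / 4 : ℝ) * (X : ℝ) ^ (1 / 4 : ℝ)) = X := by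
      rw [← Real.rpow_add hX0, ← Real.rpow_add hX0]
      norm_num
    calc 3 * ((⌊r⌋₊ : ℝ) + 1) * Real.log X ^ 3 ≤ (9 * (X : ℝ) ^ (1 / 4 : ℝ)) * (X : ℝ) ^ (1 / 4 : ℝ) := by
          apply mul_le_mul h8 h7 (by positivity) (by positivity)
      _ = 9 * ((X : ℝ) ^ (1 / 4 : ℝ) * (X : ℝ) ^ (1 / 4 : ℝ)) := by ring
      _ ≤ ((X : ℝ) ^ (1 / 4 : ℝ) * (X : ℝ) ^ (1 / 4 : ℝ)) * ((X : ℝ) ^ (1 / 4 : ℝ) * (X : ℝ) ^ (1 / 4 : ℝ)) := by
          apply mul_le_mul_of_nonneg_right _ (by positivity)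
          nlinarith
      _ = X := h9

end Pool.Agent.K4H8.DP
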