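import Pool.Agent.K4H8.DP.Cnt

/-!
# The upper bound for the number of integers which lose a positive proportion of their representations
-/

set_option autoImplicit false

namespace Pool.Agent.K4H8.DP

open Finset

/-- the size of a set in one class -/
lemma card_class {X q : ℕ} (hq : 0 < q) {N : Finset ℕ} (hN : ∀ n ∈ N, X < n ∧ n ≤ 2 * X)
    (hc : ∀ n ∈ N, ∀ n' ∈ N, n % q = n' % q) (hM : 1 ≤ N.card) : N.card ≤ X / q + 1 := by
  classical
  obtain ⟨n₀, hn₀, hmin⟩ := exists_min_image N (fun n => n) (card_pos.1 hM)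
  have h : (N.image (fun n => (n - n₀) / q)) ⊆ range (X / q + 1) := by
    intro t ht
    rw [mem_image] at ht
    obtain ⟨n, hn, rfl⟩ := ht
    rw [mem_range]
    have h1 := hN n hn
    have h2 := hN n₀ hn₀
    have h3 : (n - n₀) / q ≤ X / q := Nat.div_le_div_right (by omega)
    omega
  have h1 := card_le_card h
  rw [card_range, card_image_of_injOn] at h1
  · exact h1
  · intro n hn n' hn' he
    rw [mem_coe] at hn hn'
    have e1 := hmin n hn
    have e2 := hmin n' hn'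
    dsimp only at he e1 e2
    have d1 : q ∣ n - n₀ := (Nat.modEq_iff_dvd' e1).1 (hc n₀ hn₀ n hn)
    have d2 : q ∣ n' - n₀ := (Nat.modEq_iff_dvd' e2).1 (hc n₀ hn₀ n' hn')
    have k1 := Nat.div_mul_cancel d1
    have k2 := Nat.div_mul_cancel d2
    rw [he] at k1
    omega

/-- the sum over a part of the set, through the quotients by `q` -/
lemma avg_part {b : ℝ} (hb : 0 < b) (hW : ∀ K : ℕ, 2 ≤ K → W1 K ≤ b * Real.log K) {X q : ℕ} (hq : 0 < q)
    {N : Finset ℕ} (hN : ∀ n ∈ N, X < n ∧ n ≤ 2 * X) (hc : ∀ n ∈ N, ∀ n' ∈ N, n % q = n' % q)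
    (hM : 1 ≤ N.card) (S : Finset ℕ) (hS : S ⊆ N) (n : ℕ) (hn : n ∈ N) (hnS : n ∉ S) (f : ℕ → ℕ)
    (hf : Set.InjOn f S) (hfd : ∀ n' ∈ S, 0 < f n' ∧ f n' < X ∧ q ∣ f n') :
    ∑ n' ∈ S, hh (f n') ≤ hh q * (2 * Real.exp 1 * b *
      (N.card * (1 + Real.log (1 + Real.log (2 * ((X : ℝ) / q + 1) / N.card))))) := by
  classical
  have hq0 : (0 : ℝ) < q := by exact_mod_cast hq
  have hM0 : (0 : ℝ) < N.card := by exact_mod_cast hM
  have hcc := card_class hq hN hc hM
  have hccr : (N.card : ℝ) ≤ (X : ℝ) / q + 1 := by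
    have h1 : (N.card : ℝ) ≤ ((X / q : ℕ) : ℝ) + 1 := by exact_mod_cast hcc
    have h2 : ((X / q : ℕ) : ℝ) ≤ (X : ℝ) / q := Nat.cast_div_le
    linarith
  have hY1 : 1 ≤ 2 * ((X : ℝ) / q + 1) / N.card := by
    rw [le_div_iff₀ hM0]
    have : 0 ≤ (X : ℝ) / q := by positivity
    linarith
  have hlog1 : 0 ≤ Real.log (2 * ((X : ℝ) / q + 1) / N.card) := Real.log_nonneg hY1
  have hlog2 : 0 ≤ Real.log (1 + Real.log (2 * ((X : ℝ) / q + 1) / N.card)) := Real.log_nonneg (by linarith)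
  have hhq := one_le_hh q
  have hexp := Real.exp_pos 1
  rcases S.eq_empty_or_nonempty with rfl | hne
  · rw [sum_empty]
    positivity
  · have hSN : S.card < N.card := card_lt_card ⟨hS, fun h => hnS (h hn)⟩
    have hS1 : 1 ≤ S.card := card_pos.2 hne
    have hM2 : 2 ≤ N.card := by omega
    have h1 : ∀ n' ∈ S, hh (f n') ≤ hh q * hh (f n' / q) := by
      intro n' hn'
      obtain ⟨h2, h3, h4⟩ := hfd n' hn'
      have h5 := Nat.mul_div_cancel' h4
      have h6 : 0 < f n' / q := Nat.div_pos (Nat.le_of_dvd h2 h4) hq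
      have h7 := hh_mul_le q (f n' / q) hq h6
      rwa [h5] at h7
    refine (sum_le_sum h1).trans ?_
    rw [← mul_sum]
    apply mul_le_mul_of_nonneg_left _ (by linarith)
    have h2 : ∑ n' ∈ S, hh (f n' / q) = ∑ m ∈ S.image (fun n' => f n' / q), hh m := by
      rw [sum_image]
      intro a ha b hb h
      dsimp only at h
      apply hf ha hb
      have k1 := Nat.div_mul_cancel (hfd a ha).2.2
      have k2 := Nat.div_mul_cancel (hfd b hb).2.2
      rw [h] at k1
      omega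
    rw [h2]
    have h3 := avg_of b hb hW (X / q) (N.card - 1) (by omega) (by omega) (S.image (fun n' => f n' / q))
      (by
        intro m hm
        rw [mem_image] at hm
        obtain ⟨n', hn', rfl⟩ := hm
        obtain ⟨h2, h3, h4⟩ := hfd n' hn'
        rw [mem_Icc]
        exact ⟨Nat.div_pos (Nat.le_of_dvd h2 h4) hq, Nat.div_le_div_right h3.le⟩)
      (card_image_le.trans (by omega))
    refine h3.trans ?_
    apply mul_le_mul_of_nonneg_left _ (by positivity)
    have hXq : 1 ≤ X / q := by omega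
    have hXqr : (1 : ℝ) ≤ ((X / q : ℕ) : ℝ) := by exact_mod_cast hXq
    have hM1r : (1 : ℝ) ≤ ((N.card - 1 : ℕ) : ℝ) := by exact_mod_cast (by omega : 1 ≤ N.card - 1)
    have hMr : (N.card : ℝ) ≤ 2 * ((N.card - 1 : ℕ) : ℝ) := by exact_mod_cast (by omega : N.card ≤ 2 * (N.card - 1))
    have hMr2 : ((N.card - 1 : ℕ) : ℝ) ≤ N.card := by exact_mod_cast (by omega : N.card - 1 ≤ N.card)
    have hle : ((X / q : ℕ) : ℝ) / ((N.card - 1 : ℕ) : ℝ) ≤ 2 * ((X : ℝ) / q + 1) / N.card := by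
      rw [div_le_div_iff₀ (by linarith) hM0]
      have h2 : ((X / q : ℕ) : ℝ) ≤ (X : ℝ) / q := Nat.cast_div_le
      calc ((X / q : ℕ) : ℝ) * N.card ≤ ((X / q : ℕ) : ℝ) * (2 * ((N.card - 1 : ℕ) : ℝ)) :=
            mul_le_mul_of_nonneg_left hMr (by linarith)
        _ ≤ (((X : ℝ) / q + 1)) * (2 * ((N.card - 1 : ℕ) : ℝ)) :=
            mul_le_mul_of_nonneg_right (by linarith) (by linarith)
        _ = _ := by ring
    have hge : 1 ≤ ((X / q : ℕ) : ℝ) / ((N.card - 1 : ℕ) : ℝ) := by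
      rw [le_div_iff₀ (by linarith), one_mul]
      exact_mod_cast (by omega : N.card - 1 ≤ X / q)
    have hl1 : Real.log (((X / q : ℕ) : ℝ) / ((N.card - 1 : ℕ) : ℝ)) ≤
        Real.log (2 * ((X : ℝ) / q + 1) / N.card) := Real.log_le_log (by linarith) hle
    have hl0 : 0 ≤ Real.log (((X / q : ℕ) : ℝ) / ((N.card - 1 : ℕ) : ℝ)) := Real.log_nonneg hge
    have hl2 : Real.log (1 + Real.log (((X / q : ℕ) : ℝ) / ((N.card - 1 : ℕ) : ℝ))) ≤
        Real.log (1 + Real.log (2 * ((X : ℝ) / q + 1) / N.card)) := Real.log_le_log (by linarith) (by linarith)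
    have hl3 : 0 ≤ Real.log (1 + Real.log (((X / q : ℕ) : ℝ) / ((N.card - 1 : ℕ) : ℝ))) :=
      Real.log_nonneg (by linarith)
    apply mul_le_mul hMr2 (by linarith) (by linarith) hM0.le

/-- the sum over the larger elements of the set -/
lemma avg_right {b : ℝ} (hb : 0 < b) (hW : ∀ K : ℕ, 2 ≤ K → W1 K ≤ b * Real.log K) {X q : ℕ} (hq : 0 < q)
    {N : Finset ℕ} (hN : ∀ n ∈ N, X < n ∧ n ≤ 2 * X) (hc : ∀ n ∈ N, ∀ n' ∈ N, n % q = n' % q)
    (hM : 1 ≤ N.card) (n : ℕ) (hn : n ∈ N) :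
    ∑ n' ∈ N.filter (fun n' => n < n'), hh (n' - n) ≤
      hh q * (2 * Real.exp 1 * b * (N.card * (1 + Real.log (1 + Real.log (2 * ((X : ℝ) / q + 1) / N.card))))) := by
  classical
  apply avg_part hb hW hq hN hc hM (N.filter (fun n' => n < n')) (filter_subset _ _) n hn (by simp)
    (fun n' => n' - n)
  · intro a ha b hb h
    rw [mem_coe, mem_filter] at ha hb
    dsimp only at h
    omega
  · intro n' hn'
    rw [mem_filter] at hn'
    have h1 := hN n hn
    have h2 := hN n' hn'.1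
    exact ⟨by omega, by omega, (Nat.modEq_iff_dvd' hn'.2.le).1 (hc n hn n' hn'.1)⟩

/-- the sum over the smaller elements of the set -/
lemma avg_left {b : ℝ} (hb : 0 < b) (hW : ∀ K : ℕ, 2 ≤ K → W1 K ≤ b * Real.log K) {X q : ℕ} (hq : 0 < q)
    {N : Finset ℕ} (hN : ∀ n ∈ N, X < n ∧ n ≤ 2 * X) (hc : ∀ n ∈ N, ∀ n' ∈ N, n % q = n' % q)
    (hM : 1 ≤ N.card) (n : ℕ) (hn : n ∈ N) :
    ∑ n' ∈ N.filter (fun n' => n' < n), hh (n - n') ≤
      hh q * (2 * Real.exp 1 * b * (N.card * (1 + Real.log (1 + Real.log (2 * ((X : ℝ) / q + 1) / N.card))))) := by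
  classical
  apply avg_part hb hW hq hN hc hM (N.filter (fun n' => n' < n)) (filter_subset _ _) n hn (by simp)
    (fun n' => n - n')
  · intro a ha b hb h
    rw [mem_coe, mem_filter] at ha hb
    dsimp only at h
    omega
  · intro n' hn'
    rw [mem_filter] at hn'
    have h1 := hN n hn
    have h2 := hN n' hn'.1
    exact ⟨by omega, by omega, (Nat.modEq_iff_dvd' hn'.2.le).1 (hc n' hn'.1 n hn)⟩

/-- the second moment -/
lemma second_moment {b K L : ℝ} (hb : 0 < b) (hW : ∀ K : ℕ, 2 ≤ K → W1 K ≤ b * Real.log K) (hK : 0 < K)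
    (hL : 0 < L) {X q : ℕ} (hq : 0 < q) {N : Finset ℕ} (hN : ∀ n ∈ N, X < n ∧ n ≤ 2 * X)
    (hc : ∀ n ∈ N, ∀ n' ∈ N, n % q = n' % q) (hM : 1 ≤ N.card)
    (h3 : ∀ n n' : ℕ, 0 < n → n < n' → n' ≤ 2 * X → ((TT n ∩ TT n').card : ℝ) ≤
        K * (X / L ^ 3 * (hh n * hh n' * hh (n' - n))))
    (h2 : ∀ n : ℕ, 0 < n → n ≤ 2 * X → ((TT n).card : ℝ) ≤ K * (X / L ^ 2 * hh n)) :
    ∑ n ∈ N, ∑ n' ∈ N, 1 / hh n * (1 / hh n') * ((TT n ∩ TT n').card : ℝ) ≤
      K * (X / L ^ 3) * (N.card * L + 2 * (2 * Real.exp 1 * b * hh q) *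
        ((N.card : ℝ) ^ 2 * (1 + Real.log (1 + Real.log (2 * ((X : ℝ) / q + 1) / N.card))))) := by
  classical
  have hpos : ∀ n, 0 < hh n := fun n => by linarith [one_le_hh n]
  obtain ⟨Q, hQ⟩ : ∃ Q, Q = hh q * (2 * Real.exp 1 * b *
    (N.card * (1 + Real.log (1 + Real.log (2 * ((X : ℝ) / q + 1) / N.card))))) := ⟨_, rfl⟩
  have key : ∀ n ∈ N, ∑ n' ∈ N, 1 / hh n * (1 / hh n') * ((TT n ∩ TT n').card : ℝ) ≤
      K * (X / L ^ 2) + K * (X / L ^ 3) * (2 * Q) := by
    intro n hn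
    have hn1 := hN n hn
    have e1 : ∑ n' ∈ N, 1 / hh n * (1 / hh n') * ((TT n ∩ TT n').card : ℝ) =
        ∑ n' ∈ N.filter (fun n' => n' = n), 1 / hh n * (1 / hh n') * ((TT n ∩ TT n').card : ℝ) +
        (∑ n' ∈ N.filter (fun n' => n < n'), 1 / hh n * (1 / hh n') * ((TT n ∩ TT n').card : ℝ) +
        ∑ n' ∈ N.filter (fun n' => n' < n), 1 / hh n * (1 / hh n') * ((TT n ∩ TT n').card : ℝ)) := by
      rw [← sum_filter_add_sum_filter_not N (fun n' => n' = n)]
      congr 1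
      rw [← sum_filter_add_sum_filter_not (N.filter (fun n' => ¬ n' = n)) (fun n' => n < n'), filter_filter,
        filter_filter]
      congr 1
      · apply sum_congr _ (fun _ _ => rfl)
        apply filter_congr
        intro x _
        omega
      · apply sum_congr _ (fun _ _ => rfl)
        apply filter_congr
        intro x _
        omega
    rw [e1]
    have k1 : ∑ n' ∈ N.filter (fun n' => n' = n), 1 / hh n * (1 / hh n') * ((TT n ∩ TT n').card : ℝ) ≤
        K * (X / L ^ 2) := by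
      have : N.filter (fun n' => n' = n) = {n} := by
        ext x
        rw [mem_filter, mem_singleton]
        constructor
        · exact fun h => h.2
        · rintro rfl
          exact ⟨hn, rfl⟩
      rw [this, sum_singleton, inter_self]
      have h4 := h2 n (by omega) hn1.2
      have h5 := one_le_hh n
      have h6 : 1 / hh n ≤ 1 := by
        rw [div_le_one (hpos n)]
        exact h5
      have h7 : 0 < 1 / hh n := by
        have := hpos n
        positivity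
      calc 1 / hh n * (1 / hh n) * ((TT n).card : ℝ) ≤ 1 / hh n * (1 / hh n) * (K * (X / L ^ 2 * hh n)) :=
            mul_le_mul_of_nonneg_left h4 (by positivity)
        _ = K * (X / L ^ 2) * (1 / hh n) := by
            have := (hpos n).ne'
            field_simp
        _ ≤ K * (X / L ^ 2) * 1 := mul_le_mul_of_nonneg_left h6 (by positivity)
        _ = _ := mul_one _
    have k2 : ∑ n' ∈ N.filter (fun n' => n < n'), 1 / hh n * (1 / hh n') * ((TT n ∩ TT n').card : ℝ) ≤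
        K * (X / L ^ 3) * Q := by
      have h4 : ∀ n' ∈ N.filter (fun n' => n < n'), 1 / hh n * (1 / hh n') * ((TT n ∩ TT n').card : ℝ) ≤
          K * (X / L ^ 3) * hh (n' - n) := by
        intro n' hn'
        rw [mem_filter] at hn'
        have hn2 := hN n' hn'.1
        have h5 := h3 n n' (by omega) hn'.2 hn2.2
        have p1 := hpos n
        have p2 := hpos n'
        calc 1 / hh n * (1 / hh n') * ((TT n ∩ TT n').card : ℝ) ≤
            1 / hh n * (1 / hh n') * (K * (X / L ^ 3 * (hh n * hh n' * hh (n' - n)))) :=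
              mul_le_mul_of_nonneg_left h5 (by positivity)
          _ = _ := by field_simp
      refine (sum_le_sum h4).trans ?_
      rw [← mul_sum, hQ]
      exact mul_le_mul_of_nonneg_left (avg_right hb hW hq hN hc hM n hn) (by positivity)
    have k3 : ∑ n' ∈ N.filter (fun n' => n' < n), 1 / hh n * (1 / hh n') * ((TT n ∩ TT n').card : ℝ) ≤
        K * (X / L ^ 3) * Q := by
      have h4 : ∀ n' ∈ N.filter (fun n' => n' < n), 1 / hh n * (1 / hh n') * ((TT n ∩ TT n').card : ℝ) ≤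
          K * (X / L ^ 3) * hh (n - n') := by
        intro n' hn'
        rw [mem_filter] at hn'
        have hn2 := hN n' hn'.1
        have h5 := h3 n' n (by omega) hn'.2 hn1.2
        have p1 := hpos n
        have p2 := hpos n'
        rw [inter_comm]
        calc 1 / hh n * (1 / hh n') * ((TT n' ∩ TT n).card : ℝ) ≤
            1 / hh n * (1 / hh n') * (K * (X / L ^ 3 * (hh n' * hh n * hh (n - n')))) :=
              mul_le_mul_of_nonneg_left h5 (by positivity)
          _ = _ := by field_simp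
      refine (sum_le_sum h4).trans ?_
      rw [← mul_sum, hQ]
      exact mul_le_mul_of_nonneg_left (avg_left hb hW hq hN hc hM n hn) (by positivity)
    linarith
  refine (sum_le_sum key).trans ?_
  rw [sum_const, nsmul_eq_mul, hQ]
  apply le_of_eq
  field_simp

/-- the main inequality -/
lemma main_ineq {b K L κ ρ : ℝ} (hb : 0 < b) (hW : ∀ K : ℕ, 2 ≤ K → W1 K ≤ b * Real.log K) (hK : 0 < K)
    (hL : 0 < L) (hκ : 0 < κ) {X q : ℕ} (hX : 1 ≤ X) (hq : 0 < q) {N R : Finset ℕ}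
    (hN : ∀ n ∈ N, X < n ∧ n ≤ 2 * X) (hc : ∀ n ∈ N, ∀ n' ∈ N, n % q = n' % q) (hM : 1 ≤ N.card)
    (h3 : ∀ n n' : ℕ, 0 < n → n < n' → n' ≤ 2 * X → ((TT n ∩ TT n').card : ℝ) ≤
        K * (X / L ^ 3 * (hh n * hh n' * hh (n' - n))))
    (h2 : ∀ n : ℕ, 0 < n → n ≤ 2 * X → ((TT n).card : ℝ) ≤ K * (X / L ^ 2 * hh n))
    (hR : (R.card : ℝ) ≤ ρ * (X / L))
    (hlost : ∀ n ∈ N, κ * (X / L ^ 2 * hh n) ≤ ((R ∩ TT n).card : ℝ)) :
    κ ^ 2 * (N.card : ℝ) ^ 2 ≤ ρ * (K * (N.card * L) + K * (4 * Real.exp 1 * b * hh q) *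
      ((N.card : ℝ) ^ 2 * (1 + Real.log (1 + Real.log (2 * ((X : ℝ) / q + 1) / N.card))))) := by
  classical
  have hpos : ∀ n, 0 < hh n := fun n => by linarith [one_le_hh n]
  have hX0 : (0 : ℝ) < X := by exact_mod_cast hX
  obtain ⟨a, ha⟩ : ∃ a : ℕ → ℝ, a = fun p => ∑ n ∈ N, if p ∈ TT n then 1 / hh n else 0 := ⟨_, rfl⟩
  obtain ⟨A, hA⟩ : ∃ A, A = ∑ n ∈ N, 1 / hh n * ((R ∩ TT n).card : ℝ) := ⟨_, rfl⟩
  have h4 : κ * N.card * (X / L ^ 2) ≤ A := by
    rw [hA]
    calc κ * N.card * (X / L ^ 2) = ∑ _n ∈ N, κ * (X / L ^ 2) := by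
          rw [sum_const, nsmul_eq_mul]
          ring
      _ ≤ _ := by
          apply sum_le_sum
          intro n hn
          have p := hpos n
          calc κ * (X / L ^ 2) = 1 / hh n * (κ * (X / L ^ 2 * hh n)) := by field_simp
            _ ≤ _ := mul_le_mul_of_nonneg_left (hlost n hn) (by positivity)
  have hA2 : A = ∑ p ∈ R, a p := by
    rw [hA, ha, sum_comm]
    apply sum_congr rfl
    intro n _
    rw [← sum_filter, sum_const, nsmul_eq_mul, filter_mem_eq_inter]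
    ring
  have h5 : A ^ 2 ≤ R.card * ∑ p ∈ R, a p ^ 2 := by
    rw [hA2]
    exact sq_sum_le_card_mul_sum_sq
  obtain ⟨U, hU⟩ : ∃ U, U = Ioc 0 (2 * X) := ⟨_, rfl⟩
  have hTU : ∀ n ∈ N, TT n ⊆ U := by
    intro n hn p hp
    have h6 := lt_of_TT hp
    have h7 := (mem_TT.1 hp).1.pos
    have h8 := hN n hn
    rw [hU, mem_Ioc]
    omega
  have h6 : ∑ p ∈ R, a p ^ 2 ≤ ∑ p ∈ U, a p ^ 2 := by
    have e : ∑ p ∈ R, a p ^ 2 = ∑ p ∈ R.filter (fun p => p ∈ U), a p ^ 2 := by
      symm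
      apply sum_filter_of_ne
      intro p _ hp
      by_contra hcon
      apply hp
      have : a p = 0 := by
        rw [ha]
        apply sum_eq_zero
        intro n hn
        rw [if_neg]
        exact fun h => hcon (hTU n hn h)
      rw [this]
      norm_num
    rw [e]
    apply sum_le_sum_of_subset_of_nonneg
    · intro p hp
      exact (mem_filter.1 hp).2
    · intro p _ _
      positivity
  have h7 : ∑ p ∈ U, a p ^ 2 = ∑ n ∈ N, ∑ n' ∈ N, 1 / hh n * (1 / hh n') * ((TT n ∩ TT n').card : ℝ) := by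
    have e1 : ∀ p ∈ U, a p ^ 2 = ∑ n ∈ N, ∑ n' ∈ N,
        if p ∈ TT n ∩ TT n' then 1 / hh n * (1 / hh n') else 0 := by
      intro p _
      rw [ha]
      dsimp only
      rw [pow_two, sum_mul_sum]
      apply sum_congr rfl
      intro n _
      apply sum_congr rfl
      intro n' _
      by_cases c1 : p ∈ TT n
      · by_cases c2 : p ∈ TT n'
        · rw [if_pos c1, if_pos c2, if_pos (mem_inter.2 ⟨c1, c2⟩)]
        · rw [if_neg c2, if_neg (fun h => c2 (mem_inter.1 h).2), mul_zero]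
      · rw [if_neg c1, if_neg (fun h => c1 (mem_inter.1 h).1), zero_mul]
    rw [sum_congr rfl e1, sum_comm]
    apply sum_congr rfl
    intro n hn
    rw [sum_comm]
    apply sum_congr rfl
    intro n' _
    rw [← sum_filter, sum_const, nsmul_eq_mul]
    have e2 : U.filter (fun p => p ∈ TT n ∩ TT n') = TT n ∩ TT n' := by
      ext p
      rw [mem_filter]
      constructor
      · exact fun h => h.2
      · exact fun h => ⟨hTU n hn (mem_inter.1 h).1, h⟩
    rw [e2]
    ring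
  have h8 := second_moment hb hW hK hL hq hN hc hM h3 h2
  rw [← h7] at h8
  obtain ⟨G, hG⟩ : ∃ G, G = (N.card : ℝ) ^ 2 *
    (1 + Real.log (1 + Real.log (2 * ((X : ℝ) / q + 1) / N.card))) := ⟨_, rfl⟩
  rw [← hG] at h8 ⊢
  have hq0 : (0 : ℝ) < q := by exact_mod_cast hq
  have hM0 : (0 : ℝ) < N.card := by exact_mod_cast hM
  have hcc := card_class hq hN hc hM
  have hccr : (N.card : ℝ) ≤ (X : ℝ) / q + 1 := by
    have h1 : (N.card : ℝ) ≤ ((X / q : ℕ) : ℝ) + 1 := by exact_mod_cast hcc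
    have h2 : ((X / q : ℕ) : ℝ) ≤ (X : ℝ) / q := Nat.cast_div_le
    linarith
  have hG0 : 0 ≤ G := by
    rw [hG]
    have : 0 ≤ Real.log (2 * ((X : ℝ) / q + 1) / N.card) := by
      apply Real.log_nonneg
      rw [le_div_iff₀ hM0, one_mul]
      have : 0 ≤ (X : ℝ) / q := by positivity
      linarith
    have : 0 ≤ Real.log (1 + Real.log (2 * ((X : ℝ) / q + 1) / N.card)) := Real.log_nonneg (by linarith)
    positivity
  have hR0 : (0 : ℝ) ≤ R.card := Nat.cast_nonneg _
  have hexp := Real.exp_pos 1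
  have hhq := one_le_hh q
  have hhq0 : 0 < hh q := by linarith
  have h9 : (κ * N.card * (X / L ^ 2)) ^ 2 ≤ ρ * (X / L) * (K * (X / L ^ 3) * (N.card * L +
      2 * (2 * Real.exp 1 * b * hh q) * G)) := by
    calc (κ * N.card * (X / L ^ 2)) ^ 2 ≤ A ^ 2 := pow_le_pow_left₀ (by positivity) h4 2
      _ ≤ R.card * ∑ p ∈ R, a p ^ 2 := h5
      _ ≤ R.card * (K * (X / L ^ 3) * (N.card * L + 2 * (2 * Real.exp 1 * b * hh q) * G)) :=
          mul_le_mul_of_nonneg_left (h6.trans h8) hR0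
      _ ≤ _ := mul_le_mul_of_nonneg_right hR (by positivity)
  have e : (κ * N.card * (X / L ^ 2)) ^ 2 = κ ^ 2 * (N.card : ℝ) ^ 2 * (X ^ 2 / L ^ 4) := by
    field_simp
  have e2 : ρ * (X / L) * (K * (X / L ^ 3) * (N.card * L + 2 * (2 * Real.exp 1 * b * hh q) * G)) =
      ρ * (K * (N.card * L) + K * (4 * Real.exp 1 * b * hh q) * G) * (X ^ 2 / L ^ 4) := by
    field_simp
    ring
  rw [e, e2] at h9
  exact le_of_mul_le_mul_right h9 (by positivity)

end Pool.Agent.K4H8.DP
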